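import Pool.Agent.L0h23.FC.Fin
import Pool.Agent.L0h61.T5.LinC

/-!
# The descent for `y² = x³ - 8 m³`, unconditional
-/

namespace Pool.Agent.L0h23.FCE

/-- **C7: the descent** -/
theorem t_DESC : Pool.Agent.L0h86.F5.S_DESC := desc_of Pool.Agent.L0h61.T5.t_LINC

end Pool.Agent.L0h23.FCE
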