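import Pool.Agent.L0h23.FC.Mn
import Pool.Agent.L0h23.FZ.Fin
import Pool.Agent.L0h86.F5.Def

/-!
# The descent for `y² = x³ - 8 m³` over `ℚ`
-/

set_option autoImplicit false
set_option linter.unusedSectionVars false

open scoped NumberTheorySymbols

namespace Pool.Agent.L0h23.FCE

open IsDedekindDomain NumberField
open Pool.Agent.L0h23.FZ hiding pf
open Pool.Agent.L0h23.FC
open Pool.Agent.L0h23.FDE (cI eD cI_cI cI_mem cj_cj' pf_cI D_ne sum_sub)
open Pool.Agent.L0h23.FZE (lg_sy)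
open Pool.Agent.Y696 Pool.Agent.Y715.T.Lat Pool.Agent.W192.HK
open Pool.Agent.L0h86.F3 Pool.Agent.L0h86.F5
open Pool.Agent.Y698.SG (lg lg_one lg_neg_one ix mem_ix)
open Pool.Agent.TH841.NF.D (Sha)
open Pool.Agent.L0h4.T4 (WC)

section

variable {Q P : Finset ℕ} {ϖ : ℕ → eis}

lemma m_odd (h : Dt Q P ϖ) {m : ℕ} (hm : m = ∏ q ∈ Q ∪ P, q) : m % 2 = 1 := by
  have key : ∀ T : Finset ℕ, (∀ q ∈ T, q % 2 = 1) → (∏ q ∈ T, q) % 2 = 1 := by
    intro T hT
    induction T using Finset.induction_on with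
    | empty => rfl
    | insert a T ha ih =>
      rw [Finset.prod_insert ha, Nat.mul_mod, hT a (Finset.mem_insert_self _ _),
        ih fun q hq => hT q (Finset.mem_insert_of_mem hq)]
  rw [hm]
  refine key _ fun q hq => ?_
  rcases Finset.mem_union.1 hq with h1 | h1
  · exact (h.q q h1).odd
  · have h2 := h.p q h1
    rcases h2.pr.eq_two_or_odd with h3 | h3
    · have := h2.m3
      omega
    · exact h3

lemma bt_uniq {x : eis} {β γ : F4} (h : Bt rho x β) (h' : Bt rho x γ) : β = γ := by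
  obtain ⟨t, ht, rfl⟩ := h
  obtain ⟨u, hu, rfl⟩ := h'
  rw [two_inj (ht.symm.trans hu)]

lemma bt_N1 {x : eis} (h : N1 x) : Bt rho x (bt x) := by
  obtain ⟨u, rfl⟩ := h
  refine ⟨la * u, by ring, ?_⟩
  rw [mul_assoc, bt_eq]

lemma rho_int (k : ℤ) : rho (k : eis) = F4.of (k : ZMod 2) := by
  rw [map_intCast, map_intCast]

lemma bt_odd {m : ℕ} (hm : m % 2 = 1) : Bt rho (m : eis) (F4.of (1 + tm m)) := by
  refine ⟨(((m / 2 : ℕ) : ℤ) : eis), ?_, ?_⟩
  · have h1 : m = 1 + 2 * (m / 2) := by omega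
    conv_lhs => rw [h1]
    push_cast
    rfl
  · rw [rho_int]
    congr 1
    unfold tm
    split_ifs with h
    · have h2 : (((m / 2 : ℕ) : ℤ) : ZMod 2) = 0 :=
        (ZMod.intCast_zmod_eq_zero_iff_dvd _ 2).2 (by omega)
      rw [h2]
      decide
    · have h2 : (((m / 2 : ℕ) : ℤ) : ZMod 2) = ((1 : ℤ) : ZMod 2) := by
        rw [ZMod.intCast_eq_intCast_iff]
        show ((m / 2 : ℕ) : ℤ) % 2 = 1 % 2
        omega
      rw [h2]
      decide

/-- the sum of the classes modulo four -/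
lemma sum_bt (hG : S_GEN) (h : Dt Q P ϖ) {m : ℕ} (hm : m = ∏ q ∈ Q ∪ P, q) :
    ∑ i ∈ ix Q P, bt (pf Q ϖ i) = F4.of (eD m + 1 + tm m) := by
  obtain ⟨hX, hprod, -⟩ := hG Q P ϖ m h hm
  have h1 : Bt rho (∏ i ∈ ix Q P, pf Q ϖ i) (∑ i ∈ ix Q P, bt (pf Q ϖ i)) :=
    Bt.prod fun i hi => bt_N1 (hX.pd i hi).n1
  have h2 := bt_odd (m_odd h hm)
  rcases hprod with ⟨e1, e2⟩ | ⟨e1, e2⟩
  · rw [e1] at h1
    rw [bt_uniq h1 h2]
    unfold eD
    rw [if_pos e2, zero_add]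
  · have h3 : Bt rho (-(m : eis)) (1 + F4.of (1 + tm m)) := by
      have := (Bt.neg_one (rr := rho)).mul h2
      rwa [neg_one_mul] at this
    rw [e1] at h1
    rw [bt_uniq h1 h3]
    unfold eD
    rw [if_neg (by omega), ← map_one F4.of, ← map_add]
    congr 1
    ring

lemma e2_cI (hG : S_GEN) (h : Dt Q P ϖ) {m : ℕ} (hm : m = ∏ q ∈ Q ∪ P, q) (i : ℕ × Bool) :
    e2 (pf Q ϖ) (cI Q i) = e2 (pf Q ϖ) i := by
  obtain ⟨-, -, -, hsy, -⟩ := hG Q P ϖ m h hm
  unfold e2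
  rw [pf_cI]
  have h1 : cj (-2 : eis) = -2 := by
    show FZ.cjE (-2 : eis) = -2
    rw [map_neg, map_ofNat]
  conv_lhs => rw [← h1]
  rw [hsy]

lemma e2_fix (h : Dt Q P ϖ) {i : ℕ × Bool} (hc : cI Q i = i) :
    e2 (pf Q ϖ) i = 0 := by
  have h1 : i.1 ∈ Q := by
    by_contra hcon
    unfold cI at hc
    rw [if_neg hcon] at hc
    have := congrArg Prod.snd hc
    simp at this
  have hq := h.q _ h1
  unfold e2 pf
  rw [if_pos h1, Pool.Agent.L0h23.FR.sy_neg_mod]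
  have hn : (-2 : eis) * cj (-2) = ((4 : ℕ) : eis) := by
    have h1 : cj (-2 : eis) = -2 := by
      show FZ.cjE (-2 : eis) = -2
      rw [map_neg, map_ofNat]
    rw [h1]
    push_cast
    ring
  rw [Pool.Agent.L0h23.FR.sy_inert hq.pr hq.odd hq.m3 _ hn]
  have h4 : J(((4 : ℕ) : ℤ) | i.1) = 1 := by
    have e1 : (((4 : ℕ) : ℤ)) = 2 ^ 2 := by norm_num
    rw [e1, jacobiSym.pow_left]
    have hc : IsCoprime (2 : ℤ) (i.1 : ℤ) := by
      have : Nat.Coprime 2 i.1 := (Nat.coprime_primes Nat.prime_two hq.pr).2 (by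
        have := hq.odd
        omega)
      exact_mod_cast Nat.isCoprime_iff_coprime.2 this
    have _ : NeZero i.1 := ⟨hq.pr.ne_zero⟩
    have h5 := jacobiSym.ne_zero (Int.isCoprime_iff_gcd_eq_one.1 hc)
    rcases jacobiSym.trichotomy 2 i.1 with h6 | h6 | h6
    · exact absurd h6 h5
    · rw [h6]; norm_num
    · rw [h6]; norm_num
  rw [h4, Int.cast_one, lg_one]

/-- the criterion and the system -/
theorem cr8_sys (hG : S_GEN) (hR : S_REC) (hL : S_LINC) (h : Dt Q P ϖ) {m : ℕ}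
    (hm : m = ∏ q ∈ Q ∪ P, q) : Cr8 Q P ϖ m ↔
      Sys8 (ix Q P) (cI Q) (fun i => bt (pf Q ϖ i)) (mm (pf Q ϖ)) (e2 (pf Q ϖ)) (eD m) (tm m) := by
  obtain ⟨hX, -, -, hsy, hbt, -⟩ := hG Q P ϖ m h hm
  have key := hL (ℕ × Bool) (ix Q P) (cI Q) (fun i => bt (pf Q ϖ i)) (mm (pf Q ϖ)) (e2 (pf Q ϖ))
    (eD m) (tm m)
    (fun i hi => cI_mem hi) (fun i _ => cI_cI i)
    (fun i hi => by
      show bt (pf Q ϖ (cI Q i)) = _
      rw [pf_cI, hbt _ (hX.pd i hi).n1])
    (fun i _ j _ _ => by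
      unfold mm
      rw [pf_cI, pf_cI, hsy])
    (fun i hi j hj hij => hR _ _ (hX.pd i hi) (hX.pd j hj) (hX.ne i hi j hj hij))
    (fun i _ => e2_cI hG h hm i) (fun i _ hc => e2_fix h hc) (sum_bt hG h hm)
  rw [← key]
  unfold Cr8 g8
  refine not_congr (Eq.congr ?_ rfl)
  congr 1

/-- **the descent** -/
theorem fin_sys8 (hG : S_GEN) (hS : S_SUP) (h : Dt Q P ϖ) {m : ℕ} (hm : m = ∏ q ∈ Q ∪ P, q)
    (hns : Sys8 (ix Q P) (cI Q) (fun i => bt (pf Q ϖ i)) (mm (pf Q ϖ)) (e2 (pf Q ϖ)) (eD m)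
      (tm m)) :
    Finite (WC ℚ m).toAffine.Point ∧ ∀ (x : Sha (WC ℚ m)) (k : ℕ), 2 ^ k • x = 0 → x = 0 := by
  obtain ⟨hX, hprod, -, hsy, hbt, -⟩ := hG Q P ϖ m h hm
  obtain ⟨e, Φ, R, hΦ, hl⟩ := exists_R3
  have hla : Φ (2 * e - 1) = la := by
    rw [map_sub, map_mul, map_one, hΦ, map_ofNat]
    unfold la ez
    push_cast
    ring
  have hpi : ∀ (i : {i // i ∈ ix Q P}) (x : 𝓞 FF), ns x (Φ.symm (pf Q ϖ i)) = ns (Φ x) (pf Q ϖ i) := by
    intro i x
    have := ns_equiv Φ x (Φ.symm (pf Q ϖ i))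
    rw [Φ.apply_symm_apply] at this
    exact this.symm
  have hdv : ∀ x y : eis, Φ.symm x ∣ Φ.symm y ↔ y ∈ sp x := by
    intro x y
    rw [Ideal.mem_span_singleton]
    exact map_dvd_iff Φ.symm
  have hdv2 : ∀ (x : 𝓞 FF) (y : eis), x ∣ Φ.symm y ↔ y ∈ sp (Φ x) := by
    intro x y
    rw [← hdv, Φ.symm_apply_apply]
  have hm0 : m ≠ 0 := D_ne h hm
  obtain ⟨rr, hrr⟩ : ∃ rr : 𝓞 FF →+* F4, rr = rho.comp (Φ : 𝓞 FF →+* eis) := ⟨_, rfl⟩
  have hrx : ∀ x, rr x = rho (Φ x) := fun x => by rw [hrr]; rfl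
  have hrd : Rd e rr := by
    constructor
    · rw [hrx, hΦ, map_add, map_one]
      have h1 : (omr : eis) = ez 0 1 := by
        unfold ez
        push_cast
        ring
      rw [h1, rho_ez]
      decide
    · intro x hx
      rw [hrx] at hx
      obtain ⟨a, b, hab⟩ := ez_ex (Φ x)
      rw [hab, rho_ez] at hx
      have h1 : (a : ZMod 2) = 0 := congrArg F4.re hx
      have h2 : (b : ZMod 2) = 0 := congrArg F4.im hx
      obtain ⟨a', rfl⟩ := (ZMod.intCast_zmod_eq_zero_iff_dvd a 2).1 h1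
      obtain ⟨b', rfl⟩ := (ZMod.intCast_zmod_eq_zero_iff_dvd b 2).1 h2
      refine ⟨Φ.symm (ez a' b'), Φ.injective ?_⟩
      rw [map_mul, map_ofNat, Φ.apply_symm_apply, hab]
      unfold ez
      push_cast
      ring
  have hp2 : Prime (2 : 𝓞 FF) := by
    have h1 : Prime (2 : eis) := by
      have := Pool.Agent.L0h4.T3.inert_prime Nat.prime_two (by norm_num)
      exact_mod_cast this
    have h2 : (2 : 𝓞 FF) = Φ.symm 2 := by rw [map_ofNat]
    rw [h2]
    exact (MulEquiv.prime_iff Φ.symm.toMulEquiv).2 h1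
  have hb : ∀ i : {i // i ∈ ix Q P}, Bt rr (Φ.symm (pf Q ϖ i)) (bt (pf Q ϖ i)) := by
    intro i
    obtain ⟨t, ht, ht'⟩ := bt_N1 (hX.pd i.1 i.2).n1
    refine ⟨Φ.symm t, ?_, ?_⟩
    · conv_lhs => rw [ht]
      rw [map_add, map_mul, map_one, map_ofNat]
    · rw [hrx, Φ.apply_symm_apply, ht']
  have hod : ∀ i : {i // i ∈ ix Q P}, ¬ (2 : 𝓞 FF) ∣ Φ.symm (pf Q ϖ i) := by
    intro i h0
    obtain ⟨t, ht, -⟩ := hb i
    rw [ht] at h0
    exact hp2.not_isUnit (isUnit_of_dvd_one ((dvd_add_left (dvd_mul_right _ _)).1 h0))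
  have hFam : Fam e (o8 (fun i : {i // i ∈ ix Q P} => Φ.symm (pf Q ϖ i)))
      (Option.map (fun i : {i // i ∈ ix Q P} => (⟨cI Q i, cI_mem i.2⟩ : {i // i ∈ ix Q P})))
      (-2 * (m : ℤ)) (eD m) := by
    refine ⟨by omega, ?_, ?_, ?_, ?_, ?_, ?_⟩
    · rintro (_ | i)
      · exact hp2.neg
      · exact (MulEquiv.prime_iff Φ.symm.toMulEquiv).2 (hX.pd i.1 i.2).pr
    · rintro (_ | i) (_ | j) hij
      · exact absurd rfl hij
      · intro h0
        exact hod j ((neg_dvd).1 h0)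
      · intro h0
        have h1 : Prime (Φ.symm (pf Q ϖ i)) :=
          (MulEquiv.prime_iff Φ.symm.toMulEquiv).2 (hX.pd i.1 i.2).pr
        have h2 := (h1.associated_of_dvd hp2.neg h0).symm.dvd
        exact hod i ((neg_dvd).1 h2)
      · show ¬ Φ.symm (pf Q ϖ i) ∣ Φ.symm (pf Q ϖ j)
        rw [hdv]
        exact hX.ne j.1 j.2 i.1 i.2 fun h' => hij (congrArg some (Subtype.ext h'.symm))
    · rintro (_ | i)
      · show (2 * e - 1) ∣ (-2 - 1 : 𝓞 FF)
        exact ⟨2 * e - 1, by linear_combination (-4 : 𝓞 FF) * R.he⟩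
      · obtain ⟨u, hu⟩ := (hX.pd i.1 i.2).n1
        have h1 : Φ.symm (pf Q ϖ i) - 1 = Φ.symm (pf Q ϖ i - 1) := by rw [map_sub, map_one]
        show (2 * e - 1) ∣ Φ.symm (pf Q ϖ i) - 1
        rw [h1, hdv2, hla, Ideal.mem_span_singleton]
        exact ⟨2 * u, by rw [hu]; ring⟩
    · rw [Fintype.prod_option]
      show (((-2 * (m : ℤ) : ℤ)) : 𝓞 FF) = (-1) ^ (eD m).val * (-2 * ∏ i : {i // i ∈ ix Q P},
        Φ.symm (pf Q ϖ i))
      apply Φ.injective
      rw [map_intCast, map_mul, map_pow, map_neg, map_one, map_mul, map_neg, map_ofNat, map_prod]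
      simp only [Φ.apply_symm_apply]
      rw [Finset.prod_coe_sort (ix Q P) (pf Q ϖ)]
      rcases hprod with ⟨h1, h2⟩ | ⟨h1, h2⟩
      · rw [h1]
        unfold eD
        rw [if_pos h2, ZMod.val_zero, pow_zero, one_mul]
        push_cast
        rfl
      · rw [h1]
        unfold eD
        rw [if_neg (by omega), show ZMod.val (1 : ZMod 2) = 1 from rfl, pow_one]
        push_cast
        ring
    · rintro (_ | i)
      · rfl
      · exact congrArg some (Subtype.ext (cI_cI _))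
    · refine ⟨(Φ.trans FZ.cjE).trans Φ.symm, ?_, ?_⟩
      · apply Φ.injective
        show Φ (Φ.symm (FZ.cjE (Φ e))) = _
        rw [Φ.apply_symm_apply, hΦ, map_add, map_one, cjE_om, map_sub, map_one, hΦ]
        ring
      · rintro (_ | i)
        · show (-2 : 𝓞 FF) = ((Φ.trans FZ.cjE).trans Φ.symm) (-2)
          rw [map_neg, map_ofNat]
        · apply Φ.injective
          show Φ (Φ.symm (pf Q ϖ (cI Q i))) = Φ (Φ.symm (FZ.cjE (Φ (Φ.symm (pf Q ϖ i)))))
          rw [Φ.apply_symm_apply, Φ.apply_symm_apply, Φ.apply_symm_apply]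
          exact pf_cI _
  have hCc : Cc (Option.map (fun i : {i // i ∈ ix Q P} =>
      (⟨cI Q i, cI_mem i.2⟩ : {i // i ∈ ix Q P})))
      (fun i : {i // i ∈ ix Q P} => (⟨cI Q i, cI_mem i.2⟩ : {i // i ∈ ix Q P}))
      (fun i : {i // i ∈ ix Q P} => bt (pf Q ϖ i)) := by
    refine ⟨rfl, fun i => rfl, fun i => Subtype.ext (cI_cI _), fun i => ?_⟩
    show bt (pf Q ϖ (cI Q i)) = _
    rw [pf_cI, hbt _ (hX.pd i.1 i.2).n1]
  have hsum : ∑ i : {i // i ∈ ix Q P}, bt (pf Q ϖ i) = F4.of (eD m + 1 + tm m) := by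
    rw [← sum_bt hG h hm]
    exact Finset.sum_coe_sort (ix Q P) fun i => bt (pf Q ϖ i)
  have hNS : NS8 (fun i j => ns (o8 (fun i : {i // i ∈ ix Q P} => Φ.symm (pf Q ϖ i)) i)
        (o8 (fun i : {i // i ∈ ix Q P} => Φ.symm (pf Q ϖ i)) j))
      (fun j => ns (-1) (o8 (fun i : {i // i ∈ ix Q P} => Φ.symm (pf Q ϖ i)) j))
      (fun j => ns (2 * e - 1) (o8 (fun i : {i // i ∈ ix Q P} => Φ.symm (pf Q ϖ i)) j))
      (Option.map (fun i : {i // i ∈ ix Q P} => (⟨cI Q i, cI_mem i.2⟩ : {i // i ∈ ix Q P})))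
      (fun i : {i // i ∈ ix Q P} => bt (pf Q ϖ i)) (eD m) (tm m) := by
    intro x hx hx2
    obtain ⟨X, hXd⟩ : ∃ X : ℕ × Bool → ZMod 2,
        X = fun i => if hi : i ∈ ix Q P then x (some ⟨i, hi⟩) else 0 := ⟨_, rfl⟩
    have hXv : ∀ i : {i // i ∈ ix Q P}, X i = x (some i) := by
      intro i
      rw [hXd]
      exact dif_pos i.2
    have hmn : ∀ i j : {i // i ∈ ix Q P}, i ≠ j → ns (Φ.symm (pf Q ϖ i)) (Φ.symm (pf Q ϖ j)) =
        mm (pf Q ϖ) i j := by
      intro i j hij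
      rw [hpi, Φ.apply_symm_apply]
      exact (lg_sy (hX.ne i.1 i.2 j.1 j.2 fun h' => hij (Subtype.ext h'))).symm
    have hsplit : ∀ (j : {i // i ∈ ix Q P}) (f : Option {i // i ∈ ix Q P} → ZMod 2),
        ∑ i ∈ Finset.univ.erase (some j), f i = f none +
          ∑ i ∈ (Finset.univ : Finset {i // i ∈ ix Q P}).erase j, f (some i) := by
      intro j f
      have e1 : (Finset.univ.erase (some j) : Finset (Option {i // i ∈ ix Q P})) =
          insert none ((Finset.univ.erase j).map Function.Embedding.some) := by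
        ext o
        rcases o with _ | i
        · simp
        · simp
      rw [e1, Finset.sum_insert (by simp), Finset.sum_map]
      rfl
    have key := hns X (x none) (fun j hj => by
      have h1 := hx ⟨j, hj⟩
      have hnn : ns (-1) (Φ.symm (pf Q ϖ j)) = F4.tr (bt (pf Q ϖ j)) := by
        have h2 := hpi ⟨j, hj⟩ (-1)
        rw [map_neg, map_one] at h2
        rw [h2, ← (hS _ (hX.pd j hj)).1]
        refine (lg_sy fun h3 => ?_).symm
        apply (hX.pd j hj).pr.not_isUnit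
        rw [Ideal.mem_span_singleton, dvd_neg] at h3
        exact isUnit_of_dvd_one h3
      have hrr' : ns (2 * e - 1) (Φ.symm (pf Q ϖ j)) = F4.tr (F4.w * bt (pf Q ϖ j)) := by
        have h2 := hpi ⟨j, hj⟩ (2 * e - 1)
        rw [hla] at h2
        rw [h2, ← (hS _ (hX.pd j hj)).2]
        refine (lg_sy fun h3 => ?_).symm
        have h4 := (FZ.pf R hFam).nd (some (some ⟨j, hj⟩)) none (by simp)
        apply h4
        show Φ.symm (pf Q ϖ j) ∣ 2 * e - 1
        rw [← Φ.symm_apply_apply (2 * e - 1), hdv, hla]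
        exact h3
      have hee : ns (-2) (Φ.symm (pf Q ϖ j)) = e2 (pf Q ϖ) j := by
        have h2 := hpi ⟨j, hj⟩ (-2)
        rw [map_neg, map_ofNat] at h2
        rw [h2]
        refine (lg_sy fun h3 => ?_).symm
        have h4 := (FZ.pf R hFam).nd (some (some ⟨j, hj⟩)) (some none) (by simp)
        apply h4
        show Φ.symm (pf Q ϖ j) ∣ -2
        rw [← Φ.symm_apply_apply (-2), hdv, map_neg, map_ofNat]
        exact h3
      have hs1 : ∑ i ∈ (ix Q P).erase j, mm (pf Q ϖ) i j * X i =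
          ∑ i ∈ (Finset.univ : Finset (ix Q P)).erase ⟨j, hj⟩,
            ns (Φ.symm (pf Q ϖ i)) (Φ.symm (pf Q ϖ j)) * x (some i) := by
        rw [← sum_sub (ix Q P) ⟨j, hj⟩ fun i => mm (pf Q ϖ) i j * X i]
        refine Finset.sum_congr rfl fun i hi => ?_
        rw [hXv, hmn i ⟨j, hj⟩ (Finset.ne_of_mem_erase hi)]
      have hs2 : ∑ i ∈ (ix Q P).erase j, mm (pf Q ϖ) i j =
          ∑ i ∈ (Finset.univ : Finset (ix Q P)).erase ⟨j, hj⟩,
            ns (Φ.symm (pf Q ϖ i)) (Φ.symm (pf Q ϖ j)) := by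
        rw [← sum_sub (ix Q P) ⟨j, hj⟩ fun i => mm (pf Q ϖ) i j]
        refine Finset.sum_congr rfl fun i hi => ?_
        rw [hmn i ⟨j, hj⟩ (Finset.ne_of_mem_erase hi)]
      have hX1 : X j = x (some ⟨j, hj⟩) := hXv ⟨j, hj⟩
      have hX2 : X (cI Q j) = x (some ⟨cI Q j, cI_mem hj⟩) := hXv ⟨cI Q j, cI_mem hj⟩
      rw [hs1, hs2, hX1, hX2]
      show _ + (_ + _ + (1 + eD m) * F4.tr (bt (pf Q ϖ j)) + F4.tr (F4.w * bt (pf Q ϖ j))) * _ +
        F4.tr (bt (pf Q ϖ j)) * _ + _ = 0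
      rw [← hnn, ← hrr', ← hee]
      unfold dg at h1
      rw [hsplit, hsplit] at h1
      simp only [o8, Option.elim_none, Option.elim_some, Option.map_some] at h1
      linear_combination h1) (by
      have h1 := hx2
      unfold ZZ at h1
      have e1 : ∀ (u : ZMod 2) (z : F4), F4.tr (F4.w * z) * u = F4.tr (F4.w * (z * F4.of u)) := by
        decide
      have e3 : ∀ (u v : ZMod 2), F4.tr (F4.w * (F4.of u * F4.of v)) = u * v := by decide
      have e4 : ∀ z z' : F4, F4.tr (z + z') = F4.tr z + F4.tr z' := fun _ _ => rfl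
      rw [mul_add, e4, e3, Finset.mul_sum] at h1
      have e5 : F4.tr (∑ i : {i // i ∈ ix Q P}, F4.w * (bt (pf Q ϖ i) * F4.of (x (some i)))) =
          ∑ i : {i // i ∈ ix Q P}, F4.tr (F4.w * (bt (pf Q ϖ i) * F4.of (x (some i)))) := by
        have : ∀ (T : Finset {i // i ∈ ix Q P}) (f : {i // i ∈ ix Q P} → F4),
            F4.tr (∑ i ∈ T, f i) = ∑ i ∈ T, F4.tr (f i) := by
          intro T f
          induction T using Finset.induction_on with
          | empty => rfl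
          | insert a T ha ih => rw [Finset.sum_insert ha, Finset.sum_insert ha, e4, ih]
        exact this _ _
      rw [e5] at h1
      rw [← Finset.sum_coe_sort (ix Q P)]
      rw [← h1]
      congr 1
      refine Finset.sum_congr rfl fun i _ => ?_
      rw [e1, hXv])
    rintro (_ | i)
    · exact key.2
    · rw [← hXv]
      exact key.1 i.1 i.2
  have hMY := myY8 R hrd hFam hb hl (M := (m : ℤ)) rfl (by
    have := m_odd h hm
    omega) hCc hsum hNS
  have hW : WY ℚ (-2 * (m : ℤ)) = WC ℚ m := by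
    unfold WY WC
    congr 1
    push_cast
    ring
  rw [← hW]
  refine ⟨mw_finiteY (hbF R) hMY, fun x k hx => ?_⟩
  exact sha_powY (hbF R) (fun x => by
    obtain ⟨u, v, h⟩ := R.hF x
    exact ⟨u, v, by rw [h]; simp⟩) hMY x k hx

end

/-- **C7: the descent**, from C6 -/
theorem desc_of (hL : S_LINC) : S_DESC := by
  intro Q P ϖ m h hm hc
  exact fin_sys8 Pool.Agent.L0h80.F3.t_GEN Pool.Agent.L0h23.FR.t_SUP h hm
    ((cr8_sys Pool.Agent.L0h80.F3.t_GEN Pool.Agent.L0h23.FR.t_REC hL h hm).1 hc)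

end Pool.Agent.L0h23.FCE
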