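import Pool.Agent.L0h23.FC.Lc2
import Pool.Agent.L0h23.FZ.Mn
import Pool.Agent.L0h86.F3.Def

/-!
# The place two of the field `ℚ(√-3)`
-/

set_option autoImplicit false
set_option linter.unusedSectionVars false

attribute [-instance] DivisionRing.toRatAlgebra

namespace Pool.Agent.L0h23.FC

open Pool.Agent.Y698 hiding Sgn
open Pool.Agent.L0h23.FZ
open IsDedekindDomain NumberField WithZero
open Finset
open Pool.Agent.L0h86.F3 (F4)

/-- the reduction modulo two -/
structure Rd {F : Type} [Field F] [NumberField F] (e : 𝓞 F) (rr : 𝓞 F →+* F4) : Prop where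
  ee : rr e = F4.w * F4.w
  ker : ∀ x, rr x = 0 → (2 : 𝓞 F) ∣ x

section place

variable {F : Type} [Field F] [NumberField F] {e : 𝓞 F} {rr : 𝓞 F →+* F4}
  (hp : Prime (-2 : 𝓞 F))

include hp

lemma val_two : (plc hp).valuation F 2 = exp (-1) := by
  have h := plc_self (F := F) hp
  rw [map_neg, map_ofNat, Valuation.map_neg] at h
  exact h

/-- approximation by integers -/
lemma approx (x : (plc hp).adicCompletion F)
    (hx : (Valued.v : Valuation ((plc hp).adicCompletion F) ℤᵐ⁰) x ≤ 1) :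
    ∃ c : 𝓞 F, (Valued.v : Valuation ((plc hp).adicCompletion F) ℤᵐ⁰)
      (x - algebraMap F _ (algebraMap (𝓞 F) F c)) < 1 := by
  obtain ⟨x', hx'⟩ : ∃ x' : F, (Valued.v : Valuation ((plc hp).adicCompletion F) ℤᵐ⁰)
      (algebraMap F ((plc hp).adicCompletion F) x' - x) <
      (Valued.v : Valuation ((plc hp).adicCompletion F) ℤᵐ⁰) 1 := by
    have hd := (plc hp).denseRange_algebraMap F
    have hopen : {y : (plc hp).adicCompletion F |
        (Valued.v : Valuation ((plc hp).adicCompletion F) ℤᵐ⁰) (y - x) <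
        (Valued.v : Valuation ((plc hp).adicCompletion F) ℤᵐ⁰) 1} ∈ nhds x := by
      rw [Valued.mem_nhds]
      have hr : (Valued.v : Valuation ((plc hp).adicCompletion F) ℤᵐ⁰).restrict 1 ≠ 0 := by
        rw [Ne, Valuation.restrict_eq_zero_iff, map_one]
        exact one_ne_zero
      refine ⟨Units.mk0 _ hr, fun y hy => ?_⟩
      have hy' : (Valued.v : Valuation ((plc hp).adicCompletion F) ℤᵐ⁰).restrict (y - x) <
        (Valued.v : Valuation ((plc hp).adicCompletion F) ℤᵐ⁰).restrict 1 := hy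
      rwa [Valuation.restrict_lt_iff] at hy'
    obtain ⟨y, ⟨x', rfl⟩, hy⟩ := hd.inter_nhds_nonempty hopen
    exact ⟨x', hy⟩
  rw [map_one] at hx'
  have h1 : (plc hp).valuation F x' ≤ 1 := by
    rw [← valued_algebraMap]
    have e1 : algebraMap F ((plc hp).adicCompletion F) x' =
        x + (algebraMap F ((plc hp).adicCompletion F) x' - x) := by ring
    rw [e1]
    exact Valuation.map_add_le _ hx hx'.le
  obtain ⟨n, d, hnd⟩ := (plc hp).exists_primeCompl_mul_eq_of_integer x' h1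
  have hd : ¬ (-2 : 𝓞 F) ∣ d := fun h0 => d.2 (Ideal.mem_span_singleton.2 h0)
  obtain ⟨u, hu⟩ := exists_inv hp hd
  refine ⟨n * u, ?_⟩
  have e2 : x' - algebraMap (𝓞 F) F (n * u) = x' * algebraMap (𝓞 F) F (-((d : 𝓞 F) * u - 1)) := by
    rw [map_mul, ← hnd, map_neg, map_sub, map_mul, map_one]
    ring
  have h2 : (plc hp).valuation F (x' - algebraMap (𝓞 F) F (n * u)) < 1 := by
    rw [e2, map_mul]
    refine mul_lt_one_r h1 ?_
    exact (plc_lt hp _).2 ((dvd_neg).2 hu)
  have e3 : x - algebraMap F ((plc hp).adicCompletion F) (algebraMap (𝓞 F) F (n * u)) =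
      algebraMap F ((plc hp).adicCompletion F) (x' - algebraMap (𝓞 F) F (n * u)) -
        (algebraMap F ((plc hp).adicCompletion F) x' - x) := by
    rw [map_sub]
    ring
  rw [e3]
  refine Valuation.map_sub_lt _ ?_ hx'
  rw [valued_algebraMap]
  exact h2

/-- the residue field -/
lemma res4 (hr : Rd e rr) (x : (plc hp).adicCompletion F)
    (hx : (Valued.v : Valuation ((plc hp).adicCompletion F) ℤᵐ⁰) x ≤ 1) :
    ∃ c : 𝓞 F, (c = 0 ∨ c = 1 ∨ c = e ∨ c = e ^ 2) ∧
      (Valued.v : Valuation ((plc hp).adicCompletion F) ℤᵐ⁰)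
      (x - algebraMap F _ (algebraMap (𝓞 F) F c)) < 1 := by
  obtain ⟨c, hc⟩ := approx hp x hx
  have key : ∀ c' : 𝓞 F, rr c = rr c' → (Valued.v : Valuation ((plc hp).adicCompletion F) ℤᵐ⁰)
      (x - algebraMap F _ (algebraMap (𝓞 F) F c')) < 1 := by
    intro c' h
    have h1 : (-2 : 𝓞 F) ∣ c - c' := by
      rw [neg_dvd]
      exact hr.ker _ (by rw [map_sub, h, sub_self])
    have h2 := (plc_lt hp (c - c')).2 h1
    have e1 : x - algebraMap F ((plc hp).adicCompletion F) (algebraMap (𝓞 F) F c') =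
        (x - algebraMap F _ (algebraMap (𝓞 F) F c)) +
          algebraMap F ((plc hp).adicCompletion F) (algebraMap (𝓞 F) F (c - c')) := by
      rw [map_sub, map_sub]
      ring
    rw [e1]
    refine Valuation.map_add_lt _ hc ?_
    rw [valued_algebraMap]
    exact h2
  have h4 : ∀ z : F4, z = 0 ∨ z = 1 ∨ z = F4.w * F4.w ∨ z = (F4.w * F4.w) ^ 2 := by decide
  rcases h4 (rr c) with h | h | h | h
  · exact ⟨0, Or.inl rfl, key 0 (by rw [h, map_zero])⟩
  · exact ⟨1, Or.inr (Or.inl rfl), key 1 (by rw [h, map_one])⟩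
  · exact ⟨e, Or.inr (Or.inr (Or.inl rfl)), key e (by rw [h, hr.ee])⟩
  · exact ⟨e ^ 2, Or.inr (Or.inr (Or.inr rfl)), key _ (by rw [h, map_pow, hr.ee])⟩

/-- the units are squares modulo two -/
lemma sq4 (he : e ^ 2 = e - 1) (hr : Rd e rr) (x : (plc hp).adicCompletion F)
    (hx : (Valued.v : Valuation ((plc hp).adicCompletion F) ℤᵐ⁰) x = 1) :
    ∃ s : (plc hp).adicCompletion F,
      (Valued.v : Valuation ((plc hp).adicCompletion F) ℤᵐ⁰) (x - s ^ 2) < 1 := by
  obtain ⟨c, h | h | h | h, hc⟩ := res4 hp hr x hx.le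
  · rw [h, map_zero, map_zero, sub_zero, hx] at hc
    exact absurd hc (lt_irrefl _)
  · rw [h, map_one, map_one] at hc
    exact ⟨1, by rwa [one_pow]⟩
  · refine ⟨algebraMap F _ (algebraMap (𝓞 F) F (e ^ 2)), ?_⟩
    have e1 : x - (algebraMap F ((plc hp).adicCompletion F) (algebraMap (𝓞 F) F (e ^ 2))) ^ 2 =
        (x - algebraMap F _ (algebraMap (𝓞 F) F c)) +
          algebraMap F ((plc hp).adicCompletion F) (algebraMap (𝓞 F) F (-2 * -e)) := by
      have e2 : (e ^ 2) ^ 2 = -e := by linear_combination (e ^ 2 + e) * he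
      rw [← map_pow, ← map_pow, e2, h]
      simp only [map_mul, map_neg, map_ofNat]
      ring
    rw [e1]
    refine Valuation.map_add_lt _ hc ?_
    rw [valued_algebraMap]
    exact (plc_lt hp _).2 (dvd_mul_right _ _)
  · refine ⟨algebraMap F _ (algebraMap (𝓞 F) F e), ?_⟩
    rw [h] at hc
    rw [← map_pow, ← map_pow]
    exact hc

/-- **the local condition at two** -/
theorem tpP2 (he : e ^ 2 = e - 1) (hr : Rd e rr) {D : ℤ} (hD0 : D ≠ 0) {η : 𝓞 F}
    (hη : (D : 𝓞 F) * (2 * e - 1) = 2 * η) (hη1 : (2 : 𝓞 F) ∣ η - 1) {qA qB : F} (hA : qA ≠ 0)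
    (hB : qB ≠ 0)
    (h : FP D (algebraMap F ((plc hp).adicCompletion F) (algebraMap (𝓞 F) F e))
      (algebraMap F ((plc hp).adicCompletion F) qA)
      (algebraMap F ((plc hp).adicCompletion F) qB)) :
    ∃ c : 𝓞 F, TP2 ((plc hp).valuation F) ((D : F) * (2 * algebraMap (𝓞 F) F e - 1))
      (algebraMap (𝓞 F) F e) (algebraMap (𝓞 F) F c) qA qB := by
  have hch := charC (plc hp)
  set E := (plc hp).adicCompletion F with hE
  set v : Valuation E ℤᵐ⁰ := Valued.v with hv
  have haE : (algebraMap F E (algebraMap (𝓞 F) F e)) ^ 2 =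
      algebraMap F E (algebraMap (𝓞 F) F e) - 1 := by
    rw [← map_pow, ← map_pow, he, map_sub, map_one, map_sub, map_one]
  have hA' : algebraMap F E qA ≠ 0 := by rw [Ne, map_eq_zero]; exact hA
  have hB' : algebraMap F E qB ≠ 0 := by rw [Ne, map_eq_zero]; exact hB
  have e0 : (D : E) * (2 * algebraMap F E (algebraMap (𝓞 F) F e) - 1) =
      algebraMap F _ ((D : F) * (2 * algebraMap (𝓞 F) F e - 1)) := by
    rw [map_mul, map_sub, map_mul, map_intCast, map_ofNat, map_one]
  have e1 : (D : E) * (2 * algebraMap F E (algebraMap (𝓞 F) F e) - 1) =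
      2 * algebraMap F E (algebraMap (𝓞 F) F η) := by
    have h1 := congrArg (fun z => algebraMap F E (algebraMap (𝓞 F) F z)) hη
    simp only [map_mul, map_sub, map_intCast, map_ofNat, map_one] at h1
    exact h1
  have hv2 : v 2 = exp (-1) := by
    have h1 := val_two (F := F) hp
    rw [← valued_algebraMap (plc hp), map_ofNat] at h1
    exact h1
  have hvη : v (algebraMap F E (algebraMap (𝓞 F) F η) - 1) < 1 := by
    have e2 : algebraMap F E (algebraMap (𝓞 F) F η) - 1 =
        algebraMap F E (algebraMap (𝓞 F) F (η - 1)) := by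
      simp only [map_sub, map_one]
    rw [e2, hv, valued_algebraMap]
    exact (plc_lt hp _).2 (by rw [neg_dvd]; exact hη1)
  obtain ⟨c, hc, h8⟩ := tq_FP (w := v) hv2 hD0 haE (sq4 hp he hr) hA' hB' e1 hvη h
  obtain ⟨c', -, hc'⟩ := res4 hp hr c hc
  have h9 := (h8.close hv2 (w_ab (w := v) haE).le (c' := algebraMap F E (algebraMap (𝓞 F) F c')) (by
    rw [← Valuation.map_neg, neg_sub]; exact hc')).tp
  refine ⟨c', ?_⟩
  rw [e0] at h9
  unfold TP2 at h9 ⊢
  have i1 : (1 : E) + 2 * algebraMap F E (algebraMap (𝓞 F) F c') =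
      algebraMap F E (1 + 2 * algebraMap (𝓞 F) F c') := by
    simp only [map_add, map_mul, map_one, map_ofNat]
  have i2 : (1 : E) + 2 * (algebraMap F E (algebraMap (𝓞 F) F e) *
      algebraMap F E (algebraMap (𝓞 F) F c')) =
      algebraMap F E (1 + 2 * (algebraMap (𝓞 F) F e * algebraMap (𝓞 F) F c')) := by
    simp only [map_add, map_mul, map_one, map_ofNat]
  rw [i1, i2] at h9
  simp only [← map_neg, ← map_mul] at h9
  rcases h9 with ⟨a, b⟩ | ⟨a, b⟩ | ⟨a, b⟩ | ⟨a, b⟩
  · exact Or.inl ⟨a.down _, b.down _⟩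
  · exact Or.inr (Or.inl ⟨a.down _, b.down _⟩)
  · exact Or.inr (Or.inr (Or.inl ⟨a.down _, b.down _⟩))
  · exact Or.inr (Or.inr (Or.inr ⟨a.down _, b.down _⟩))

end place

end Pool.Agent.L0h23.FC
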