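import Pool.Agent.L0h23.FZ.Val
import Pool.Agent.Y698.Trr

/-!
# The local condition at the place two for `y² = x³ + D³`, `D` twice an odd integer
-/

set_option autoImplicit false
set_option linter.unusedSectionVars false

attribute [-instance] DivisionRing.toRatAlgebra

namespace Pool.Agent.L0h23.FC

open Pool.Agent.Y698 hiding Sgn
open Pool.Agent.L0h23.FZ
open IsDedekindDomain NumberField WithZero

section gen

variable {F : Type*} [Field F] {w : Valuation F ℤᵐ⁰}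

lemma two_lt (h2 : w 2 = exp (-1)) : w 2 < 1 := by
  rw [h2, ← exp_zero, exp_lt_exp]; norm_num

lemma four_val (h2 : w 2 = exp (-1)) : w 4 = exp (-2) := by
  rw [w_four, h2, ← exp_nsmul]; rfl

lemma two_ne' (h2 : w 2 = exp (-1)) : (2 : F) ≠ 0 := by
  intro h0
  rw [h0, map_zero] at h2
  exact exp_ne_zero h2.symm

/-- small elements -/
lemma lt_one {x : F} (h : w x < 1) : w x ≤ exp (-1) := by
  by_cases hx : x = 0
  · rw [hx, map_zero]; exact zero_le
  obtain ⟨m, hm⟩ := vexp (w := w) hx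
  rw [hm, ← exp_zero, exp_lt_exp] at h
  rw [hm, exp_le_exp]
  omega

lemma w_two_mul (h2 : w 2 = exp (-1)) {x : F} (h : w x < 1) : w (2 * x) ≤ w 4 := by
  rw [map_mul, h2, four_val h2]
  calc exp (-1) * w x ≤ exp (-1) * exp (-1) := mul_le_mul_right (lt_one h) _
    _ = exp (-2) := by rw [← exp_add]; rfl

lemma unit_val (h2 : w 2 = exp (-1)) {b : F} (hb : w b ≤ 1) : w (1 + 2 * b) = 1 := by
  have h : w (2 * b) < w (1 : F) := by
    rw [map_mul, map_one]
    exact mul_lt_one_of_lt_of_le (two_lt h2) hb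
  rw [Valuation.map_add_eq_of_lt_left w h, map_one]

lemma Ur.close (h2 : w 2 = exp (-1)) {q u u' : F} (h : Ur w (q * u)) (hu : w u = 1)
    (h4 : w (u' - u) ≤ w 4) : Ur w (q * u') := by
  have hu0 : u ≠ 0 := by
    rintro rfl
    rw [map_zero] at hu
    exact zero_ne_one hu
  have h1 : Ur w (u' / u) := by
    refine ⟨1, one_ne_zero, ?_⟩
    have e : u' / u - 1 ^ 2 = (u' - u) / u := by field_simp
    rw [e, map_div₀, hu, div_one, map_one, one_pow, mul_one]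
    exact h4
  have h3 := h.mul (two_lt h2) h1
  have e : q * u * (u' / u) = q * u' := by field_simp
  rwa [e] at h3

/-- the class of `q` is the one of `1 + 2 b`, up to unramified classes -/
def Kb (w : Valuation F ℤᵐ⁰) (q b : F) : Prop := w b ≤ 1 ∧ Ur w (q * (1 + 2 * b))

lemma Kb.mul (h2 : w 2 = exp (-1)) {q b q' b' : F} (h : Kb w q b) (h' : Kb w q' b') :
    Kb w (q * q') (b + b') := by
  refine ⟨Valuation.map_add_le w h.1 h'.1, ?_⟩
  have h3 := h.2.mul (two_lt h2) h'.2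
  have e : q * (1 + 2 * b) * (q' * (1 + 2 * b')) = (q * q') * ((1 + 2 * b) * (1 + 2 * b')) := by
    ring
  rw [e] at h3
  refine Ur.close h2 h3 ?_ ?_
  · rw [map_mul, unit_val h2 h.1, unit_val h2 h'.1, one_mul]
  · have e1 : 1 + 2 * (b + b') - (1 + 2 * b) * (1 + 2 * b') = -(4 * (b * b')) := by ring
    rw [e1, Valuation.map_neg, map_mul, map_mul]
    exact mul_le_of_le_one_right' (mul_le_one' h.1 h'.1)

lemma Kb.close (h2 : w 2 = exp (-1)) {q b b' : F} (h : Kb w q b) (hb : w (b' - b) < 1) :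
    Kb w q b' := by
  have h1 : w b' ≤ 1 := by
    have e : b' = b + (b' - b) := by ring
    rw [e]
    exact Valuation.map_add_le w h.1 hb.le
  refine ⟨h1, Ur.close h2 h.2 (unit_val h2 h.1) ?_⟩
  have e : 1 + 2 * b' - (1 + 2 * b) = 2 * (b' - b) := by ring
  rw [e]
  exact w_two_mul h2 hb

lemma Kb.sqE (h2 : w 2 = exp (-1)) {q q' b : F} (h : Kb w q b) (hq : SqE q' q) : Kb w q' b :=
  ⟨h.1, h.2.sqE (two_lt h2) (hq.mul (SqE.refl _))⟩

lemma Kb.sq_mul (h2 : w 2 = exp (-1)) {q b s : F} (hs : s ≠ 0) (h : Kb w (s ^ 2 * q) b) :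
    Kb w q b := by
  refine h.sqE h2 ⟨s⁻¹, inv_ne_zero hs, ?_⟩
  field_simp

/-- an element `s² (1 + 2 b)` -/
lemma Kb.of (h2 : w 2 = exp (-1)) {q s b : F} (hs : s ≠ 0) (hb : w b ≤ 1)
    (h : q = s ^ 2 * (1 + 2 * b)) : Kb w q b := by
  refine ⟨hb, s * (1 + 2 * b), ?_, ?_⟩
  · have h1 := unit_val h2 hb
    refine mul_ne_zero hs ?_
    intro h0
    rw [h0, map_zero] at h1
    exact zero_ne_one h1
  · rw [h]
    have e : s ^ 2 * (1 + 2 * b) * (1 + 2 * b) - (s * (1 + 2 * b)) ^ 2 = 0 := by ring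
    rw [e, map_zero]
    exact zero_le

/-- squares up to unramified classes among the units `1 + 2 b` -/
lemma ur_small (h2 : w 2 = exp (-1)) {b : F} (hb : w b ≤ 1) (h : Ur w (1 + 2 * b)) : w b < 1 := by
  obtain ⟨z, hz, h⟩ := h
  have h3 := ur_val (two_lt h2) hz h
  rw [unit_val h2 hb] at h3
  have hz1 : w z = 1 := (pow_eq_one_iff_of_nonneg zero_le two_ne_zero).1 h3.symm
  rw [hz1, one_pow, mul_one, four_val h2] at h
  obtain ⟨t, ht⟩ : ∃ t, t = z - 1 := ⟨_, rfl⟩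
  have hzt : z = 1 + t := by rw [ht]; ring
  have ht1 : w t ≤ 1 := by
    rw [ht]
    exact Valuation.map_sub_le w hz1.le (by rw [map_one])
  have e : 1 + 2 * b - z ^ 2 = 2 * b - 2 * t - t ^ 2 := by rw [hzt]; ring
  rw [e] at h
  have a1 : ∀ x : F, w x ≤ 1 → w (2 * x) ≤ exp (-1) := by
    intro x hx
    rw [map_mul, h2]
    exact mul_le_of_le_one_right' hx
  have h4 : w (t ^ 2) ≤ exp (-1) := by
    have e1 : t ^ 2 = (2 * b - 2 * t) - (2 * b - 2 * t - t ^ 2) := by ring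
    rw [e1]
    refine Valuation.map_sub_le w (Valuation.map_sub_le w (a1 b hb) (a1 t ht1)) ?_
    refine h.trans ?_
    rw [exp_le_exp]
    norm_num
  have h5 : w t ≤ exp (-1) := by
    by_cases ht0 : t = 0
    · rw [ht0, map_zero]; exact zero_le
    obtain ⟨k, hk⟩ := vexp (w := w) ht0
    rw [map_pow, hk, ← exp_nsmul, exp_le_exp] at h4
    simp only [nsmul_eq_mul, Nat.cast_ofNat] at h4
    rw [hk, exp_le_exp]
    omega
  have h6 : w (2 * t) ≤ exp (-2) := by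
    rw [map_mul, h2]
    calc exp (-1) * w t ≤ exp (-1) * exp (-1) := mul_le_mul_right h5 _
      _ = exp (-2) := by rw [← exp_add]; rfl
  have h7 : w (t ^ 2) ≤ exp (-2) := by
    rw [map_pow, pow_two]
    calc w t * w t ≤ exp (-1) * exp (-1) := mul_le_mul' h5 h5
      _ = exp (-2) := by rw [← exp_add]; rfl
  have h8 : w (2 * b) ≤ exp (-2) := by
    have e1 : 2 * b = (2 * b - 2 * t - t ^ 2) + 2 * t + t ^ 2 := by ring
    rw [e1]
    exact Valuation.map_add_le w (Valuation.map_add_le w h h6) h7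
  by_contra hcon
  rw [not_lt] at hcon
  have h9 : w b = 1 := le_antisymm hb hcon
  rw [map_mul, h2, h9, mul_one, exp_le_exp] at h8
  norm_num at h8

/-- the class of a square -/
lemma Kb.zero (h2 : w 2 = exp (-1)) {s b : F} (hs : s ≠ 0) (h : Kb w (s ^ 2) b) : w b < 1 := by
  have h1 : Kb w 1 b := Kb.sq_mul h2 hs (by rwa [mul_one])
  have h3 := h1.2
  rw [one_mul] at h3
  exact ur_small h2 h1.1 h3

/-- the pair is locally the class of a point -/
def TP2 (w : Valuation F ℤᵐ⁰) (δ a c qA qB : F) : Prop :=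
  (Ur w (qA * (1 + 2 * c)) ∧ Ur w (qB * (1 + 2 * (a * c)))) ∨
  (Ur w (δ * qA * (1 + 2 * c)) ∧ Ur w (-δ * qB * (1 + 2 * (a * c)))) ∨
  (Ur w (-qA * (1 + 2 * c)) ∧ Ur w (δ * qB * (1 + 2 * (a * c)))) ∨
  (Ur w (-δ * qA * (1 + 2 * c)) ∧ Ur w (-qB * (1 + 2 * (a * c))))

/-- the same with an unspecified `c` -/
def TQ2 (w : Valuation F ℤᵐ⁰) (δ a c qA qB : F) : Prop :=
  (Kb w qA c ∧ Kb w qB (a * c)) ∨ (Kb w (δ * qA) c ∧ Kb w (-δ * qB) (a * c)) ∨
  (Kb w (-qA) c ∧ Kb w (δ * qB) (a * c)) ∨ (Kb w (-δ * qA) c ∧ Kb w (-qB) (a * c))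

lemma TQ2.close (h2 : w 2 = exp (-1)) {δ a c c' qA qB : F} (ha : w a ≤ 1)
    (h : TQ2 w δ a c qA qB) (hc : w (c' - c) < 1) : TQ2 w δ a c' qA qB := by
  have hac : w (a * c' - a * c) < 1 := by
    rw [← mul_sub, map_mul]
    exact mul_lt_one_r ha hc
  rcases h with ⟨x, y⟩ | ⟨x, y⟩ | ⟨x, y⟩ | ⟨x, y⟩
  · exact Or.inl ⟨x.close h2 hc, y.close h2 hac⟩
  · exact Or.inr (Or.inl ⟨x.close h2 hc, y.close h2 hac⟩)
  · exact Or.inr (Or.inr (Or.inl ⟨x.close h2 hc, y.close h2 hac⟩))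
  · exact Or.inr (Or.inr (Or.inr ⟨x.close h2 hc, y.close h2 hac⟩))

lemma TQ2.tp {δ a c qA qB : F} (h : TQ2 w δ a c qA qB) : TP2 w δ a c qA qB := by
  rcases h with ⟨x, y⟩ | ⟨x, y⟩ | ⟨x, y⟩ | ⟨x, y⟩
  · exact Or.inl ⟨x.2, y.2⟩
  · exact Or.inr (Or.inl ⟨x.2, y.2⟩)
  · exact Or.inr (Or.inr (Or.inl ⟨x.2, y.2⟩))
  · exact Or.inr (Or.inr (Or.inr ⟨x.2, y.2⟩))

lemma TQ2.of_gt (h2 : w 2 = exp (-1)) {δ a qA qB : F} (hδ : δ ≠ 0) (h : GT δ qA qB) :
    TQ2 w δ a 0 qA qB := by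
  have k0 : ∀ {q : F}, q ≠ 0 → SqE q 1 → Kb w q 0 := by
    rintro q - ⟨z, hz, rfl⟩
    exact Kb.of h2 hz (by rw [map_zero]; exact zero_le) (by ring)
  have k : ∀ {q d : F}, d ≠ 0 → SqE q d → Kb w (d * q) 0 := by
    rintro q d hd ⟨z, hz, rfl⟩
    exact Kb.of h2 (mul_ne_zero hd hz) (by rw [map_zero]; exact zero_le) (by ring)
  have ne : ∀ {q d : F}, d ≠ 0 → SqE q d → q ≠ 0 := by
    rintro q d hd ⟨z, hz, rfl⟩
    exact mul_ne_zero hd (pow_ne_zero 2 hz)
  have n1 : (-1 : F) ≠ 0 := neg_ne_zero.2 one_ne_zero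
  have nδ : -δ ≠ 0 := neg_ne_zero.2 hδ
  unfold TQ2
  rw [mul_zero]
  rcases h with ⟨x, y⟩ | ⟨x, y⟩ | ⟨x, y⟩ | ⟨x, y⟩
  · exact Or.inl ⟨k0 (ne one_ne_zero x) x, k0 (ne one_ne_zero y) y⟩
  · exact Or.inr (Or.inl ⟨k hδ x, k nδ y⟩)
  · refine Or.inr (Or.inr (Or.inl ⟨?_, k hδ y⟩))
    have := k n1 x
    rwa [neg_one_mul] at this
  · refine Or.inr (Or.inr (Or.inr ⟨k nδ x, ?_⟩))
    have := k n1 y
    rwa [neg_one_mul] at this

/-- **the local condition at two** -/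
theorem tq_FP [CharZero F] (h2 : w 2 = exp (-1)) {D : ℤ} (hD : D ≠ 0) {a : F} (ha : a ^ 2 = a - 1)
    (hsq : ∀ x : F, w x = 1 → ∃ s : F, w (x - s ^ 2) < 1)
    {qA qB η : F} (hA : qA ≠ 0) (hB : qB ≠ 0) (hδ : (D : F) * (2 * a - 1) = 2 * η)
    (hη : w (η - 1) < 1) (h : FP D a qA qB) :
    ∃ c : F, w c ≤ 1 ∧ TQ2 w ((D : F) * (2 * a - 1)) a c qA qB := by
  have hD0 : (D : F) ≠ 0 := by exact_mod_cast hD
  rcases h.red hD ha hA hB with h | ⟨x, y, hy, hxy, h1, h2'⟩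
  · exact ⟨0, by rw [map_zero]; exact zero_le,
      TQ2.of_gt h2 (mul_ne_zero hD0 (s3_ne ha)) h⟩
  obtain ⟨δ, hδd⟩ : ∃ δ : F, δ = (D : F) * (2 * a - 1) := ⟨_, rfl⟩
  rw [← hδd] at hδ ⊢
  have hδ0 : δ ≠ 0 := by
    rw [hδd]
    exact mul_ne_zero hD0 (s3_ne ha)
  have h20 := two_ne' h2
  have ha0 := a_ne ha
  have hb0 := a_ne (hconj ha)
  have wa := w_ab (w := w) ha
  have wb := w_ab (w := w) (hconj ha)
  have wη : w η = 1 := by
    have e : η = 1 + (η - 1) := by ring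
    rw [e, Valuation.map_add_eq_of_lt_left w (by rw [map_one]; exact hη), map_one]
  have wδ : w δ = exp (-1) := by rw [hδ, map_mul, h2, wη, mul_one]
  obtain ⟨X, hX⟩ : ∃ X, X = x - ra D a := ⟨_, rfl⟩
  obtain ⟨Y, hY⟩ : ∃ Y, Y = x - rb D a := ⟨_, rfl⟩
  obtain ⟨Z, hZ⟩ : ∃ Z, Z = x - ro F D := ⟨_, rfl⟩
  have d1 : Y = δ + X := by rw [hX, hY, hδd, ← ra_rb]; ring
  have d2 : Z = -δ * a ^ 2 + X := by rw [hX, hZ, hδd, ← ra_ro ha]; ring
  have d3 : Z = δ * (1 - a) ^ 2 + Y := by rw [hY, hZ, hδd, ← rb_ro ha]; ring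
  rw [← hX] at h1
  rw [← hY] at h2'
  rw [← hX, ← hY, ← hZ] at hxy
  have hX0 : X ≠ 0 := by
    rintro h0
    rw [h0, mul_zero, zero_mul] at hxy
    exact hy (pow_eq_zero_iff two_ne_zero |>.1 hxy)
  have hY0 : Y ≠ 0 := by
    rintro h0
    rw [h0, mul_zero] at hxy
    exact hy (pow_eq_zero_iff two_ne_zero |>.1 hxy)
  have hZ0 : Z ≠ 0 := by
    rintro h0
    rw [h0, zero_mul, zero_mul] at hxy
    exact hy (pow_eq_zero_iff two_ne_zero |>.1 hxy)
  have wA : w (-δ * a ^ 2) = w δ := by rw [map_mul, Valuation.map_neg, map_pow, wa]; simp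
  have wB : w (δ * (1 - a) ^ 2) = w δ := by rw [map_mul, map_pow, wb]; simp
  have nA : -δ * a ^ 2 ≠ 0 := mul_ne_zero (neg_ne_zero.2 hδ0) (pow_ne_zero 2 ha0)
  have nB : δ * (1 - a) ^ 2 ≠ 0 := mul_ne_zero hδ0 (pow_ne_zero 2 hb0)
  -- transport along the classes
  have tA : ∀ {c b : F}, Kb w (c * X) b → Kb w (c * qA) b :=
    fun h => h.sqE h2 ((SqE.refl _).mul h1)
  have tB : ∀ {c b : F}, Kb w (c * Y) b → Kb w (c * qB) b :=
    fun h => h.sqE h2 ((SqE.refl _).mul h2')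
  have tA1 : ∀ {b : F}, Kb w X b → Kb w qA b := fun h => h.sqE h2 h1
  have tB1 : ∀ {b : F}, Kb w Y b → Kb w qB b := fun h => h.sqE h2 h2'
  have tAn : ∀ {b : F}, Kb w (-X) b → Kb w (-qA) b := fun {b} h => by
    have := tA (c := -1) (b := b) (by rwa [neg_one_mul])
    rwa [neg_one_mul] at this
  have tBn : ∀ {b : F}, Kb w (-Y) b → Kb w (-qB) b := fun {b} h => by
    have := tB (c := -1) (b := b) (by rwa [neg_one_mul])
    rwa [neg_one_mul] at this
  have w2lt := two_lt h2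
  have sm2 : ∀ {z : F}, w z ≤ 1 → w (2 * z) < 1 := fun hz => by
    rw [map_mul]
    exact mul_lt_one_of_lt_of_le w2lt hz
  rcases lt_trichotomy (w X) 1 with hX1 | hX1 | hX1
  · -- `X` is small
    have hXle : w X ≤ w δ := by rw [wδ]; exact lt_one hX1
    have wY : w Y ≤ w δ := by rw [d1]; exact Valuation.map_add_le w le_rfl hXle
    have wZ : w Z ≤ w δ := by rw [d2]; exact Valuation.map_add_le w wA.le hXle
    -- the quotient by `2 δ`
    have kap : ∀ {U : F}, w U < w δ → w (U / (2 * δ)) ≤ 1 := by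
      intro U hU
      by_cases hU0 : U = 0
      · rw [hU0, zero_div, map_zero]; exact zero_le
      obtain ⟨k, hk⟩ := vexp (w := w) hU0
      rw [hk, wδ, exp_lt_exp] at hU
      rw [map_div₀, map_mul, h2, wδ, hk, ← exp_add, ← exp_sub, ← exp_zero, exp_le_exp]
      omega
    rcases hXle.lt_or_eq with hXs | hXs
    · obtain ⟨κ, hκ⟩ : ∃ κ, κ = X / (2 * δ) := ⟨_, rfl⟩
      have wκ : w κ ≤ 1 := by rw [hκ]; exact kap hXs
      have eX : X = 2 * δ * κ := by rw [hκ]; field_simp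
      have kY : Kb w (δ * Y) κ := Kb.of h2 hδ0 wκ (by rw [d1, eX]; ring)
      have hκa : w (-(κ * (1 - a) ^ 2)) ≤ 1 := by
        rw [Valuation.map_neg, map_mul, map_pow, wb, one_pow, mul_one]; exact wκ
      have kZ : Kb w (-δ * Z) (-(κ * (1 - a) ^ 2)) := by
        refine Kb.of h2 (s := δ * a) (mul_ne_zero hδ0 ha0) hκa ?_
        rw [d2, eX]
        linear_combination 2 * δ ^ 2 * κ * (a * (1 - a) + 1) * (ab_one ha)
      have kX : Kb w (-X) (κ + -(κ * (1 - a) ^ 2)) := by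
        have h5 := kY.mul h2 kZ
        refine h5.sqE h2 ⟨X / (δ * y), div_ne_zero hX0 (mul_ne_zero hδ0 hy), ?_⟩
        field_simp
        rw [hxy]
        ring
      refine ⟨κ * (1 + a), ?_, Or.inr (Or.inr (Or.inl ⟨tAn (kX.close h2 ?_), tB (kY.close h2 ?_)⟩))⟩
      · rw [map_mul]
        refine mul_le_one' wκ (Valuation.map_add_le w (by rw [map_one]) wa.le)
      · have e : κ * (1 + a) - (κ + -(κ * (1 - a) ^ 2)) = 0 := by linear_combination κ * ha
        rw [e, map_zero]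
        exact zero_lt_one
      · have e : a * (κ * (1 + a)) - κ = 2 * (κ * (a - 1)) := by linear_combination κ * ha
        rw [e]
        apply sm2
        have hw1 : w (a - 1) = 1 := by rw [← Valuation.map_neg, neg_sub, wb]
        rw [map_mul, hw1, mul_one]
        exact wκ
    rcases wY.lt_or_eq with hYs | hYs
    · obtain ⟨κ, hκ⟩ : ∃ κ, κ = Y / (2 * δ) := ⟨_, rfl⟩
      have wκ : w κ ≤ 1 := by rw [hκ]; exact kap hYs
      have eY : Y = 2 * δ * κ := by rw [hκ]; field_simp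
      have hnκ : w (-κ) ≤ 1 := by rw [Valuation.map_neg]; exact wκ
      have kX : Kb w (-δ * X) (-κ) := by
        refine Kb.of h2 hδ0 hnκ ?_
        have : X = Y - δ := by rw [d1]; ring
        rw [this, eY]
        ring
      have hκa : w (κ * a ^ 2) ≤ 1 := by
        rw [map_mul, map_pow, wa, one_pow, mul_one]; exact wκ
      have kZ : Kb w (δ * Z) (κ * a ^ 2) := by
        refine Kb.of h2 (s := δ * (1 - a)) (mul_ne_zero hδ0 hb0) hκa ?_
        rw [d3, eY]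
        linear_combination -2 * δ ^ 2 * κ * (a * (1 - a) + 1) * (ab_one ha)
      have kY : Kb w (-Y) (-κ + κ * a ^ 2) := by
        have h5 := kX.mul h2 kZ
        refine h5.sqE h2 ⟨Y / (δ * y), div_ne_zero hY0 (mul_ne_zero hδ0 hy), ?_⟩
        field_simp
        rw [hxy]
        ring
      refine ⟨κ, wκ, Or.inr (Or.inr (Or.inr ⟨tA (kX.close h2 ?_), tBn (kY.close h2 ?_)⟩))⟩
      · have e : κ - -κ = 2 * κ := by ring
        rw [e]
        exact sm2 wκ
      · have e : a * κ - (-κ + κ * a ^ 2) = 2 * κ := by linear_combination -κ * ha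
        rw [e]
        exact sm2 wκ
    rcases wZ.lt_or_eq with hZs | hZs
    · obtain ⟨κ, hκ⟩ : ∃ κ, κ = Z / (2 * δ) := ⟨_, rfl⟩
      have wκ : w κ ≤ 1 := by rw [hκ]; exact kap hZs
      have eZ : Z = 2 * δ * κ := by rw [hκ]; field_simp
      have h5 : w (κ * (1 - a) ^ 2) ≤ 1 := by
        rw [map_mul, map_pow, wb, one_pow, mul_one]; exact wκ
      have kX : Kb w (δ * X) (κ * (1 - a) ^ 2) := by
        refine Kb.of h2 (s := δ * a) (mul_ne_zero hδ0 ha0) h5 ?_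
        have : X = Z + δ * a ^ 2 := by rw [d2]; ring
        rw [this, eZ]
        linear_combination -2 * δ ^ 2 * κ * (a * (1 - a) + 1) * (ab_one ha)
      have h6 : w (-(κ * a ^ 2)) ≤ 1 := by
        rw [Valuation.map_neg, map_mul, map_pow, wa, one_pow, mul_one]; exact wκ
      have kY : Kb w (-δ * Y) (-(κ * a ^ 2)) := by
        refine Kb.of h2 (s := δ * (1 - a)) (mul_ne_zero hδ0 hb0) h6 ?_
        have : Y = Z - δ * (1 - a) ^ 2 := by rw [d3]; ring
        rw [this, eZ]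
        linear_combination 2 * δ ^ 2 * κ * (a * (1 - a) + 1) * (ab_one ha)
      refine ⟨κ * (1 - a) ^ 2, h5, Or.inr (Or.inl ⟨tA kX, tB (kY.close h2 ?_)⟩)⟩
      have e : a * (κ * (1 - a) ^ 2) - -(κ * a ^ 2) = 0 := by
        linear_combination κ * a * ha
      rw [e, map_zero]
      exact zero_lt_one
    · exfalso
      have h5 := congrArg w hxy
      rw [map_pow, map_mul, map_mul, hXs, hYs, hZs, wδ] at h5
      obtain ⟨m, hm⟩ := vexp (w := w) hy
      rw [hm, ← exp_nsmul, ← exp_add, ← exp_add, exp_inj] at h5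
      simp only [nsmul_eq_mul, Nat.cast_ofNat] at h5
      omega
  · -- `X` is a unit
    obtain ⟨s, hs⟩ := hsq X hX1
    have ws2 : w (s ^ 2) = 1 := by
      have e : s ^ 2 = X - (X - s ^ 2) := by ring
      rw [e, Valuation.map_sub_eq_of_lt_left w (by rw [hX1]; exact hs), hX1]
    have ws : w s = 1 := by
      rw [map_pow] at ws2
      exact (pow_eq_one_iff_of_nonneg zero_le two_ne_zero).1 ws2
    have hs0 : s ≠ 0 := by
      rintro rfl
      rw [map_zero] at ws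
      exact zero_ne_one ws
    obtain ⟨c, hc⟩ : ∃ c, c = (X - s ^ 2) / (2 * s ^ 2) := ⟨_, rfl⟩
    have eX : X = s ^ 2 * (1 + 2 * c) := by rw [hc]; field_simp; ring
    have wc : w c ≤ 1 := by
      rw [hc, map_div₀, map_mul, ws2, mul_one, h2]
      exact (div_le_one₀ (zero_lt_iff.2 exp_ne_zero)).2 (lt_one hs)
    obtain ⟨τ, hτ⟩ : ∃ τ, τ = η / s ^ 2 := ⟨_, rfl⟩
    have wτ : w τ = 1 := by rw [hτ, map_div₀, wη, ws2, div_one]
    have eη : η = s ^ 2 * τ := by rw [hτ]; field_simp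
    have w1 : w (c + τ) ≤ 1 := Valuation.map_add_le w wc wτ.le
    have w2 : w (c - τ * a ^ 2) ≤ 1 := by
      refine Valuation.map_sub_le w wc ?_
      rw [map_mul, map_pow, wa, wτ]; simp
    have kX : Kb w X c := Kb.of h2 hs0 wc eX
    have kY : Kb w Y (c + τ) := Kb.of h2 hs0 w1 (by rw [d1, hδ, eX, eη]; ring)
    have kZ : Kb w Z (c - τ * a ^ 2) := Kb.of h2 hs0 w2 (by rw [d2, hδ, eX, eη]; ring)
    have k3 := (kX.mul h2 kY).mul h2 kZ
    have e3 : X * Y * Z = y ^ 2 := by rw [hxy]; ring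
    rw [e3] at k3
    have k4 := Kb.zero h2 hy k3
    -- `c ≡ a τ`
    have k5 : w (a * τ - c) < 1 := by
      have e : a * τ - c = 2 * (c + τ) - (c + (c + τ) + (c - τ * a ^ 2)) := by
        linear_combination -τ * ha
      rw [e]
      exact Valuation.map_sub_lt w (sm2 w1) k4
    refine ⟨a * τ, by rw [map_mul, wa, wτ, one_mul], Or.inl ⟨tA1 (kX.close h2 k5),
      tB1 (kY.close h2 ?_)⟩⟩
    have e : a * (a * τ) - (c + τ) = (a * τ - c) - 2 * τ := by linear_combination τ * ha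
    rw [e]
    exact Valuation.map_sub_lt w k5 (sm2 wτ.le)
  · -- `X` is large
    have wXn : ∃ n : ℤ, w X = exp n ∧ 1 ≤ n := by
      obtain ⟨n, hn⟩ := vexp (w := w) hX0
      refine ⟨n, hn, ?_⟩
      rw [hn, ← exp_zero, exp_lt_exp] at hX1
      omega
    obtain ⟨n, hn, hn1⟩ := wXn
    have big : ∀ {U V : F}, w V = w δ → U = V + X → Ur w (X * U) := by
      intro U V hV hU
      refine ⟨X, hX0, ?_⟩
      have e : X * U - X ^ 2 = X * V := by rw [hU]; ring
      rw [e, map_mul, hV, wδ, four_val h2, hn, ← exp_add, ← exp_nsmul, ← exp_add, exp_le_exp]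
      simp only [nsmul_eq_mul, Nat.cast_ofNat]
      omega
    have u1 := big rfl d1
    have u2 := big wA d2
    have sqr : ∀ {z : F}, z ≠ 0 → Ur w (z ^ 2) := fun hz =>
      ⟨_, hz, by rw [sub_self, map_zero]; exact zero_le⟩
    have uX : Ur w X := by
      have h5 := u1.mul w2lt u2
      refine h5.sqE w2lt ⟨X / (X * y), div_ne_zero hX0 (mul_ne_zero hX0 hy), ?_⟩
      have e : X * Y * (X * Z) = X * (X * y ^ 2 / X) := by rw [hxy]; field_simp
      rw [e]
      field_simp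
    have uY : Ur w Y := by
      have h5 := u1.mul w2lt uX
      refine h5.sqE w2lt ⟨X⁻¹, inv_ne_zero hX0, ?_⟩
      field_simp
    refine ⟨0, by rw [map_zero]; exact zero_le, Or.inl ⟨tA1 ⟨by rw [map_zero]; exact zero_le, ?_⟩,
      tB1 ⟨by rw [mul_zero, map_zero]; exact zero_le, ?_⟩⟩⟩
    · rwa [mul_zero, add_zero, mul_one]
    · rwa [mul_zero, mul_zero, add_zero, mul_one]

end gen

end Pool.Agent.L0h23.FC
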