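import Pool.Agent.L0h23.FZ.Lin
import Pool.Agent.L0h86.F3.Def

/-!
# Linear algebra for the curves `y² = x³ - 8 m³`
-/

set_option autoImplicit false
set_option linter.unusedSectionVars false

namespace Pool.Agent.L0h23.FC

open Finset
open Pool.Agent.L0h23.FZ (dg Cj two_eq)
open Pool.Agent.L0h86.F3 (F4)

section
variable {ι : Type} [Fintype ι] [DecidableEq ι]

/-- the sum which belongs to the place two -/
def ZZ (b : ι → F4) (t : ZMod 2) (x : Option ι → ZMod 2) : F4 :=
  ∑ i, b i * F4.of (x (some i)) + F4.of t * F4.of (x none)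

/-- the system has only the zero solution -/
def NS8 (m : Option ι → Option ι → ZMod 2) (n r : Option ι → ZMod 2) (c : Option ι → Option ι)
    (b : ι → F4) (ε t : ZMod 2) : Prop :=
  ∀ x : Option ι → ZMod 2, (∀ j : ι, ∑ i ∈ univ.erase (some j), m i (some j) * x i +
      x (some j) * (dg m n r ε (some j) + n (some j)) + n (some j) * x (c (some j)) = 0) →
    F4.tr (F4.w * ZZ b t x) = 0 → ∀ o, x o = 0

variable {m : Option ι → Option ι → ZMod 2} {n r : Option ι → ZMod 2} {c : Option ι → Option ι}
  {b : ι → F4} {ε t : ZMod 2}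

lemma ZZ_add (x y : Option ι → ZMod 2) : ZZ b t (fun o => x o + y o) = ZZ b t x + ZZ b t y := by
  unfold ZZ
  have e : ∑ i, b i * F4.of (x (some i) + y (some i)) =
      ∑ i, b i * F4.of (x (some i)) + ∑ i, b i * F4.of (y (some i)) := by
    rw [← sum_add_distrib]
    exact sum_congr rfl fun i _ => by rw [map_add, mul_add]
  rw [e, map_add]
  ring

/-- the conjugation of the indices -/
structure Cc (c : Option ι → Option ι) (c' : ι → ι) (b : ι → F4) : Prop where
  non : c none = none
  som : ∀ i, c (some i) = some (c' i)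
  cc : ∀ i, c' (c' i) = i
  hb : ∀ i, b (c' i) = F4.cj (b i)

lemma cj_of (a : ZMod 2) : F4.cj (F4.of a) = F4.of a := by
  revert a; decide

lemma ZZ_conj {c' : ι → ι} (h : Cc c c' b) (x : Option ι → ZMod 2) :
    ZZ b t (fun o => x (c o)) = F4.cj (ZZ b t x) := by
  unfold ZZ
  simp only [map_add, map_sum, map_mul, cj_of, h.non, h.som]
  congr 1
  refine sum_nbij' c' c' (by simp) (by simp) (fun i _ => h.cc i) (fun i _ => h.cc i) ?_
  intro i _
  rw [h.hb, F4.cj_cj]

lemma tr_add (a b : F4) : F4.tr (a + b) = F4.tr a + F4.tr b := rfl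

lemma f_two (a : F4) : a + a = 0 := by
  revert a; decide

/-- from the pairs to the system -/
theorem pair_zero8 (h : Cj m n r c) {c' : ι → ι} (hc : Cc c c' b) (hns : NS8 m n r c b ε t)
    (x y : Option ι → ZMod 2)
    (hA : ∀ j : ι, ∑ i ∈ univ.erase (some j), m i (some j) * x i +
      x (some j) * (dg m n r ε (some j) + n (some j)) + n (some j) * y (some j) = 0)
    (hB : ∀ j : ι, ∑ i ∈ univ.erase (some j), m i (some j) * y i +
      y (some j) * dg m n r ε (some j) + n (some j) * x (some j) = 0)
    (hZ : ZZ b t y + F4.w * F4.w * ZZ b t x = 0) :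
    ∀ o, x o = 0 ∧ y o = 0 := by
  have key : ∀ x y : Option ι → ZMod 2,
      (∀ j : ι, ∑ i ∈ univ.erase (some j), m i (some j) * x i +
        x (some j) * (dg m n r ε (some j) + n (some j)) + n (some j) * y (some j) = 0) →
      (∀ j : ι, ∑ i ∈ univ.erase (some j), m i (some j) * y i +
        y (some j) * dg m n r ε (some j) + n (some j) * x (some j) = 0) →
      ZZ b t y + F4.w * F4.w * ZZ b t x = 0 →
      ∀ o, x o + y (c o) = 0 := by
    intro x y hA hB hZ
    apply hns (fun o => x o + y (c o))
    · intro j
      have h1 := hA j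
      have h2 := hB (c' j)
      rw [← hc.som, h.sum, h.dg, h.hn] at h2
      have e : ∑ i ∈ univ.erase (some j), m i (some j) * (x i + y (c i)) =
          ∑ i ∈ univ.erase (some j), m i (some j) * x i +
            ∑ i ∈ univ.erase (some j), m i (some j) * y (c i) := by
        rw [← sum_add_distrib]
        exact sum_congr rfl fun i _ => mul_add _ _ _
      rw [e, h.cc]
      linear_combination h1 + h2
    · rw [ZZ_add, ZZ_conj hc]
      have h1 : ZZ b t y = F4.w * F4.w * ZZ b t x := by
        linear_combination hZ - f_two (F4.w * F4.w * ZZ b t x)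
      rw [h1]
      generalize ZZ b t x = Z
      revert Z
      decide
  have k1 := key x y hA hB hZ
  have k2 := key y (fun o => x o + y o) (fun j => by
      have h1 := hB j
      linear_combination h1 + two_eq (n (some j) * y (some j))) (fun j => by
      have h1 := hA j
      have h2 := hB j
      have e : ∑ i ∈ univ.erase (some j), m i (some j) * (x i + y i) =
          ∑ i ∈ univ.erase (some j), m i (some j) * x i +
            ∑ i ∈ univ.erase (some j), m i (some j) * y i := by
        rw [← sum_add_distrib]
        exact sum_congr rfl fun i _ => mul_add _ _ _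
      rw [e]
      linear_combination h1 + h2 - two_eq (n (some j) * x (some j))) (by
      rw [ZZ_add]
      have h1 : ZZ b t y = F4.w * F4.w * ZZ b t x := by
        linear_combination hZ - f_two (F4.w * F4.w * ZZ b t x)
      rw [h1]
      generalize ZZ b t x = Z
      revert Z
      decide)
  have hy : ∀ o, y o = 0 := by
    intro o
    have e1 := k2 (c o)
    have e2 := k1 (c o)
    rw [h.cc] at e1 e2
    -- `y (c o) + x o + y o = 0`, `x (c o) + y o = 0`
    have e3 := k1 o
    linear_combination e1 - e3
  intro o
  have e1 := k1 o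
  rw [hy, add_zero] at e1
  exact ⟨e1, hy o⟩

lemma ZZ_const (s : ZMod 2) : ZZ b t (fun _ => s) = F4.of s * (∑ i, b i + F4.of t) := by
  unfold ZZ
  rw [← sum_mul]
  ring

/-- the pairs of classes with the signs and the exponents of `√-3` -/
theorem pair_gen8 (h : Cj m n r c) {c' : ι → ι} (hc : Cc c c' b) (hns : NS8 m n r c b ε t)
    (hsum : ∑ i, b i = F4.of (ε + 1 + t)) (sA tA sB tB : ZMod 2)
    (x y : Option ι → ZMod 2) (h3A : sA + tA * (ε + 1) + tB = 0) (h3B : sB + tB * ε + tA = 0)
    (hA : ∀ j : ι, sA * n (some j) + tA * r (some j) +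
      ∑ i ∈ univ.erase (some j), m i (some j) * x i +
      x (some j) * (dg m n r ε (some j) + n (some j)) + n (some j) * y (some j) = 0)
    (hB : ∀ j : ι, sB * n (some j) + tB * r (some j) +
      ∑ i ∈ univ.erase (some j), m i (some j) * y i +
      y (some j) * dg m n r ε (some j) + n (some j) * x (some j) = 0)
    (hZ : F4.of sB + F4.of tB * F4.w + ZZ b t y +
      F4.w * F4.w * (F4.of sA + F4.of tA * F4.w + ZZ b t x) = 0) :
    ∀ o, x o = tA ∧ y o = tB := by
  have e0 : ∀ (f : Option ι → ZMod 2) (s : ZMod 2) (j : ι),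
      ∑ i ∈ univ.erase (some j), m i (some j) * (f i + s) =
      ∑ i ∈ univ.erase (some j), m i (some j) * f i +
        s * ∑ i ∈ univ.erase (some j), m i (some j) := by
    intro f s j
    rw [mul_sum, ← sum_add_distrib]
    exact sum_congr rfl fun i _ => by ring
  have key := pair_zero8 h hc hns (fun i => x i + tA) (fun i => y i + tB) (fun j => by
      have h1 := hA j
      rw [e0]
      have hd : dg m n r ε (some j) = ε * n (some j) + r (some j) +
        ∑ i ∈ univ.erase (some j), m i (some j) := rfl
      linear_combination h1 + tA * hd + n (some j) * h3A - two_eq (sA * n (some j)) +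
        tA * two_eq (∑ i ∈ univ.erase (some j), m i (some j)))
    (fun j => by
      have h1 := hB j
      rw [e0]
      have hd : dg m n r ε (some j) = ε * n (some j) + r (some j) +
        ∑ i ∈ univ.erase (some j), m i (some j) := rfl
      linear_combination h1 + tB * hd + n (some j) * h3B - two_eq (sB * n (some j)) +
        tB * two_eq (∑ i ∈ univ.erase (some j), m i (some j)))
    (by
      rw [ZZ_add y (fun _ => tB), ZZ_add x (fun _ => tA), ZZ_const, ZZ_const, hsum]
      have hsA : sA = tA * (ε + 1) + tB := by linear_combination h3A - two_eq (tA * (ε + 1) + tB)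
      have hsB : sB = tB * ε + tA := by linear_combination h3B - two_eq (tB * ε + tA)
      rw [hsA, hsB] at hZ
      generalize ZZ b t x = X at hZ ⊢
      generalize ZZ b t y = Y at hZ ⊢
      clear hsA hsB h3A h3B hA hB hsum hns hc h e0 x y
      revert X Y tA tB ε t
      decide)
  intro o
  obtain ⟨k1, k2⟩ := key o
  exact ⟨by linear_combination k1 - two_eq tA, by linear_combination k2 - two_eq tB⟩

end

end Pool.Agent.L0h23.FC
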