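import Pool.Agent.L0h23.FC.Gl2
import Pool.Agent.L0h23.FC.Lin

/-!
# The main step of the descent for `y² = x³ - 8 m³`
-/

set_option autoImplicit false
set_option linter.unusedSectionVars false

attribute [-instance] DivisionRing.toRatAlgebra

namespace Pool.Agent.L0h23.FC

open Pool.Agent.Y698 hiding Sgn
open Pool.Agent.L0h23.FZ
open IsDedekindDomain NumberField WithZero
open Finset
open Pool.Agent.L0h86.F3 (F4)

section bt

variable {A : Type*} [CommRing A] (rr : A →+* F4)

/-- the class modulo four -/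
def Bt (x : A) (β : F4) : Prop := ∃ t, x = 1 + 2 * t ∧ rr t = β

variable {rr}

lemma Bt.mul {x y : A} {β γ : F4} (h : Bt rr x β) (h' : Bt rr y γ) : Bt rr (x * y) (β + γ) := by
  obtain ⟨t, rfl, rfl⟩ := h
  obtain ⟨u, rfl, rfl⟩ := h'
  refine ⟨t + u + 2 * (t * u), by ring, ?_⟩
  rw [map_add, map_add, map_mul, map_ofNat]
  have h2 : (2 : F4) = 0 := by decide
  rw [h2, zero_mul, add_zero]

lemma Bt.one : Bt rr (1 : A) 0 := ⟨0, by ring, map_zero _⟩

lemma Bt.neg_one : Bt rr (-1 : A) 1 := ⟨-1, by ring, by rw [map_neg, map_one]; decide⟩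

lemma Bt.pow {x : A} {β : F4} (h : Bt rr x β) (a : ZMod 2) : Bt rr (x ^ a.val) (β * F4.of a) := by
  rcases zmod2_cases a with rfl | rfl
  · rw [ZMod.val_zero, pow_zero, map_zero, mul_zero]
    exact Bt.one
  · rw [show ZMod.val (1 : ZMod 2) = 1 from rfl, pow_one, map_one, mul_one]
    exact h

lemma Bt.prod {κ : Type*} {T : Finset κ} {f : κ → A} {g : κ → F4} (h : ∀ i ∈ T, Bt rr (f i) (g i)) :
    Bt rr (∏ i ∈ T, f i) (∑ i ∈ T, g i) := by
  classical
  induction T using Finset.induction_on with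
  | empty => rw [Finset.prod_empty, Finset.sum_empty]; exact Bt.one
  | insert i T hi ih =>
    rw [Finset.prod_insert hi, Finset.sum_insert hi]
    exact (h i (mem_insert_self _ _)).mul (ih fun j hj => h j (mem_insert_of_mem hj))

end bt

/-- the family with `-2` -/
def o8 {A : Type*} [CommRing A] {ι : Type} (π : ι → A) : Option ι → A := fun o => o.elim (-2) π

section main

variable {F : Type} [Field F] [NumberField F] {e : 𝓞 F} (R : R3 F e) {rr : 𝓞 F →+* F4}
  (hr : Rd e rr) {ι : Type} [Fintype ι] [DecidableEq ι] {π : ι → 𝓞 F} {c : Option ι → Option ι}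
  {D : ℤ} {ε : ZMod 2} (h : Fam e (o8 π) c D ε) {b : ι → F4} (hb : ∀ i, Bt rr (π i) (b i))

/-- the class modulo four of a global class -/
def BB (b : ι → F4) (s : ZMod 2) (x : Option (Option ι) → ZMod 2) : F4 :=
  F4.of s + F4.of (x none) * F4.w + ∑ i, b i * F4.of (x (some (some i)))

lemma BB_add (s s' : ZMod 2) (x x' : Option (Option ι) → ZMod 2) :
    BB b (s + s') (x + x') = BB b s x + BB b s' x' := by
  unfold BB
  have e1 : ∑ i, b i * F4.of ((x + x') (some (some i))) =
      ∑ i, b i * F4.of (x (some (some i))) + ∑ i, b i * F4.of (x' (some (some i))) := by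
    rw [← sum_add_distrib]
    exact sum_congr rfl fun i _ => by rw [Pi.add_apply, map_add, mul_add]
  rw [e1, Pi.add_apply, map_add, map_add]
  ring

lemma BB_zero (s : ZMod 2) : BB b s 0 = F4.of s := by
  unfold BB
  simp

include R hr h hb

/-- the unramified classes at two -/
lemma ur_gg (s : ZMod 2) (x : Option (Option ι) → ZMod 2) (g : 𝓞 F)
    (hU : Ur ((plc ((FZ.pf R h).pr (some none))).valuation F)
      (algebraMap (𝓞 F) F (gg (rh e (o8 π)) s x) * (1 + 2 * algebraMap (𝓞 F) F g))) :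
    x (some none) = 0 ∧ BB b s x + rr g = 0 := by
  have hpid := R.pid
  have hpf := FZ.pf R h
  have hp : Prime (-2 : 𝓞 F) := hpf.pr (some none)
  obtain ⟨w, hw⟩ : ∃ w, w = (plc (hpf.pr (some none))).valuation F := ⟨_, rfl⟩
  have hw' : w = (plc hp).valuation F := hw
  rw [← hw] at hU
  have h2 : w 2 = exp (-1) := by rw [hw']; exact val_two hp
  have hx : x (some none) = 0 := by
    obtain ⟨z, hz, h1⟩ := hU.ev (two_lt h2)
    rw [map_mul, unit_val h2 (by rw [hw]; exact val_le _ g), mul_one, hw,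
      gg_val hpf (some none)] at h1
    obtain ⟨m, hm⟩ := vexp (w := w) hz
    rw [← hw, hm, ← exp_nsmul, exp_inj] at h1
    simp only [nsmul_eq_mul, Nat.cast_ofNat] at h1
    rcases zmod2_cases (x (some none)) with h3 | h3
    · exact h3
    · exfalso
      rw [h3, show ZMod.val (1 : ZMod 2) = 1 from rfl] at h1
      push_cast at h1
      omega
  refine ⟨hx, ?_⟩
  have hB : Bt rr (gg (rh e (o8 π)) s x) (BB b s x) := by
    unfold gg
    rw [Fintype.prod_option, Fintype.prod_option]
    have e1 : rh e (o8 π) (some none) ^ (x (some none)).val = 1 := by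
      rw [hx, ZMod.val_zero, pow_zero]
    rw [e1, one_mul]
    unfold BB
    rw [add_assoc]
    refine Bt.mul ?_ (Bt.mul ?_ (Bt.prod fun i _ => ?_))
    · have := (Bt.neg_one (rr := rr)).pow s
      rwa [one_mul] at this
    · have k : Bt rr (2 * e - 1) F4.w := ⟨e - 1, by ring, by rw [map_sub, hr.ee, map_one]; decide⟩
      have := k.pow (x none)
      rwa [mul_comm F4.w] at this
    · exact (hb i).pow _
  have hg : Bt rr (1 + 2 * g) (rr g) := ⟨g, rfl, rfl⟩
  obtain ⟨T, hT, hT'⟩ := hB.mul hg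
  have e2 : algebraMap (𝓞 F) F (gg (rh e (o8 π)) s x) * (1 + 2 * algebraMap (𝓞 F) F g) =
      1 + 2 * algebraMap (𝓞 F) F T := by
    have := congrArg (algebraMap (𝓞 F) F) hT
    simp only [map_mul, map_add, map_one, map_ofNat] at this
    exact this
  rw [e2] at hU
  have h4 := ur_small h2 (by rw [hw]; exact val_le _ T) hU
  have h5 : (-2 : 𝓞 F) ∣ T := (plc_lt hp T).1 (by rw [← hw']; exact h4)
  obtain ⟨T', rfl⟩ := h5
  rw [← hT', map_mul, map_neg, map_ofNat]
  have : (-2 : F4) = 0 := by decide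
  rw [this, zero_mul]

/-- **the main step** -/
theorem mainY8 (hl : ns (-1) (2 * e - 1) = 1) {M : ℤ} (hM : D = -2 * M) (hM2 : M % 2 = 1)
    {c' : ι → ι} (hc : Cc c c' b) {t : ZMod 2} (hsum : ∑ i, b i = F4.of (ε + 1 + t))
    (hns : NS8 (fun i j => ns (o8 π i) (o8 π j)) (fun j => ns (-1) (o8 π j))
      (fun j => ns (2 * e - 1) (o8 π j)) c b ε t) :
    MainP D (algebraMap (𝓞 F) F e) := by
  have hpid := R.pid
  have hpf := FZ.pf R h
  obtain ⟨a, ha⟩ : ∃ a, a = algebraMap (𝓞 F) F e := ⟨_, rfl⟩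
  have hb2 : a ^ 2 = a - 1 := by rw [ha]; exact hbF R
  have hδ : (D : F) * (2 * a - 1) = algebraMap (𝓞 F) F (gg (rh e (o8 π)) ε 1) := by
    rw [delta_gg R h, ha]
    simp only [map_mul, map_sub, map_intCast, map_ofNat, map_one]
  rw [← ha]
  intro qA qB hA hB hP
  rw [hδ]
  obtain ⟨δ, hδd⟩ : ∃ δ : F, δ = (D : F) * (2 * a - 1) := ⟨_, rfl⟩
  have hEv : ∀ P : HeightOneSpectrum (𝓞 F),
      (∀ k, P.valuation F (algebraMap (𝓞 F) F (rh e (o8 π) k)) = 1) →
      Ev (P.valuation F) qA ∧ Ev (P.valuation F) qB := by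
    intro P hk
    refine evP hb2 P h.D0 ?_ hA hB (hP P)
    rw [hδ]
    unfold gg
    rw [map_mul, map_mul, map_pow, map_pow, map_neg, map_one, Valuation.map_neg, map_one, one_pow,
      one_mul, map_prod, map_prod]
    refine Finset.prod_eq_one fun i _ => ?_
    rw [map_pow, map_pow, hk i, one_pow]
  obtain ⟨sA, xA, cA⟩ := exists_gg hpf R.hu hA fun P hk => (hEv P hk).1
  obtain ⟨sB, xB, cB⟩ := exists_gg hpf R.hu hB fun P hk => (hEv P hk).2
  have hT : ∀ k, TP ((plc (hpf.pr k)).valuation F) δ qA qB := by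
    intro k
    rw [hδd]
    refine tpP hb2 (plc (hpf.pr k)) h.D0 (k := -1) ?_ hA hB (hP _)
    rw [hδ, gg_val hpf]
    rfl
  have hE := fun k => eqs hpf k (ε := ε) (hδd.trans hδ) cA cB (hT k)
  have hn0 : ns (-1) (rh e (o8 π) none) = 1 := hl
  have c1 : SqE (-1 : F) (algebraMap (𝓞 F) F (gg (rh e (o8 π)) 1 0)) := by
    rw [gg_neg, show ZMod.val (1 : ZMod 2) = 1 from rfl, pow_one, map_neg, map_one]
    exact SqE.refl _
  have c0 : SqE (1 : F) (algebraMap (𝓞 F) F (gg (rh e (o8 π)) 0 0)) := by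
    rw [gg_zero, map_one]; exact SqE.refl _
  have cn : SqE (-(algebraMap (𝓞 F) F (gg (rh e (o8 π)) ε 1)))
      (algebraMap (𝓞 F) F (gg (rh e (o8 π)) (1 + ε) 1)) := by
    have := (c1.mul (SqE.refl (algebraMap (𝓞 F) F (gg (rh e (o8 π)) ε 1)))).trans
      (gg_sqE hpf 1 ε 0 1)
    rwa [neg_one_mul, zero_add] at this
  -- the place two
  have hZ : F4.of sB + F4.of (xB none) * F4.w + ZZ b t (fun i => xB (some i)) +
      F4.w * F4.w * (F4.of sA + F4.of (xA none) * F4.w + ZZ b t (fun i => xA (some i))) = 0 := by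
    have hp : Prime (-2 : 𝓞 F) := hpf.pr (some none)
    have hη : (D : 𝓞 F) * (2 * e - 1) = 2 * (-(M : 𝓞 F) * (2 * e - 1)) := by
      rw [hM]
      push_cast
      ring
    have hη1 : (2 : 𝓞 F) ∣ -(M : 𝓞 F) * (2 * e - 1) - 1 := by
      obtain ⟨k, hk⟩ : ∃ k : ℤ, M = 2 * k + 1 := ⟨M / 2, by omega⟩
      refine ⟨-(M : 𝓞 F) * e + k, ?_⟩
      rw [hk]
      push_cast
      ring
    have hPF := hP (plc hp)
    rw [ha] at hPF
    obtain ⟨g, hg⟩ := tpP2 hp R.he hr h.D0 hη hη1 hA hB hPF
    rw [← ha, ← hδd] at hg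
    obtain ⟨w, hw⟩ : ∃ w, w = (plc hp).valuation F := ⟨_, rfl⟩
    rw [← hw] at hg
    have h2 : w 2 = exp (-1) := by rw [hw]; exact val_two hp
    -- a class times a global class
    have key : ∀ {d q : F} {u s : ZMod 2} {y x : Option (Option ι) → ZMod 2} {g : 𝓞 F},
        SqE d (algebraMap (𝓞 F) F (gg (rh e (o8 π)) u y)) →
        SqE q (algebraMap (𝓞 F) F (gg (rh e (o8 π)) s x)) →
        Ur w (d * q * (1 + 2 * algebraMap (𝓞 F) F g)) →
        y (some none) + x (some none) = 0 ∧ BB b u y + BB b s x + rr g = 0 := by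
      intro d q u s y x g hd hq hs
      have h1 : Ur w (algebraMap (𝓞 F) F (gg (rh e (o8 π)) (u + s) (y + x)) *
          (1 + 2 * algebraMap (𝓞 F) F g)) := by
        refine hs.sqE (two_lt h2) ?_
        exact (((hd.mul hq).trans (gg_sqE hpf u s y x)).symm).mul (SqE.refl _)
      rw [hw] at h1
      obtain ⟨h2, h3⟩ := ur_gg R hr h hb _ _ _ h1
      rw [BB_add] at h3
      exact ⟨h2, h3⟩
    have cδ : SqE δ (algebraMap (𝓞 F) F (gg (rh e (o8 π)) ε 1)) := by
      rw [hδd.trans hδ]; exact SqE.refl _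
    have cn' : SqE (-δ) (algebraMap (𝓞 F) F (gg (rh e (o8 π)) (1 + ε) 1)) := by
      rw [hδd.trans hδ]; exact cn
    have B0 : BB b 0 0 = 0 := by rw [BB_zero, map_zero]
    have B1 : BB b 1 0 = 1 := by rw [BB_zero, map_one]
    have Bε : BB b ε 1 = F4.w + 1 + F4.of t := by
      unfold BB
      simp only [Pi.one_apply, map_one, mul_one, one_mul]
      rw [hsum, map_add, map_add, map_one]
      linear_combination f_two (F4.of ε)
    have Bn : BB b (1 + ε) 1 = F4.w + F4.of t := by
      have : BB b (1 + ε) 1 = BB b 1 0 + BB b ε 1 := by rw [← BB_add, zero_add]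
      rw [this, B1, Bε]
      linear_combination f_two (1 : F4)
    have eZA : F4.of sA + F4.of (xA none) * F4.w + ZZ b t (fun i => xA (some i)) =
        BB b sA xA + F4.of t * F4.of (xA (some none)) := by
      unfold BB ZZ
      ring
    have eZB : F4.of sB + F4.of (xB none) * F4.w + ZZ b t (fun i => xB (some i)) =
        BB b sB xB + F4.of t * F4.of (xB (some none)) := by
      unfold BB ZZ
      ring
    rw [eZA, eZB]
    have heg : rr (e * g) = F4.w * F4.w * rr g := by rw [map_mul, hr.ee]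
    have ei : a * algebraMap (𝓞 F) F g = algebraMap (𝓞 F) F (e * g) := by
      rw [ha, map_mul]
    unfold TP2 at hg
    rw [ei] at hg
    generalize hXa : xA (some none) = aA at *
    generalize hXb : xB (some none) = aB at *
    generalize hBA : BB b sA xA = BA at *
    generalize hBBB : BB b sB xB = BB' at *
    have fin : ∀ (γ BA BB' : F4) (aA aB t : ZMod 2),
        ((aA = 0 ∧ BA + γ = 0 ∧ aB = 0 ∧ BB' + F4.w * F4.w * γ = 0) ∨
        (1 + aA = 0 ∧ F4.w + 1 + F4.of t + BA + γ = 0 ∧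
          1 + aB = 0 ∧ F4.w + F4.of t + BB' + F4.w * F4.w * γ = 0) ∨
        (aA = 0 ∧ 1 + BA + γ = 0 ∧
          1 + aB = 0 ∧ F4.w + 1 + F4.of t + BB' + F4.w * F4.w * γ = 0) ∨
        (1 + aA = 0 ∧ F4.w + F4.of t + BA + γ = 0 ∧
          aB = 0 ∧ 1 + BB' + F4.w * F4.w * γ = 0)) →
        BB' + F4.of t * F4.of aB + F4.w * F4.w * (BA + F4.of t * F4.of aA) = 0 := by
      intro γ BA BB' aA aB t h
      have two : ∀ s : ZMod 2, 1 + s = 0 → s = 1 := by decide
      have z2 : ∀ x y : F4, x + y = 0 → x = y := fun x y h => by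
        linear_combination h - f_two y
      rcases h with ⟨h1, h2, h3, h4⟩ | ⟨h1, h2, h3, h4⟩ | ⟨h1, h2, h3, h4⟩ | ⟨h1, h2, h3, h4⟩
      · have k1 : BA = γ := z2 _ _ h2
        have k2 : BB' = F4.w * F4.w * γ := z2 _ _ h4
        rw [k1, k2, h1, h3]
        clear h1 h2 h3 h4 k1 k2
        revert γ t
        decide
      · have k1 : BA = F4.w + 1 + F4.of t + γ := z2 _ _ (by linear_combination h2)
        have k2 : BB' = F4.w + F4.of t + F4.w * F4.w * γ := z2 _ _ (by linear_combination h4)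
        rw [k1, k2, two _ h1, two _ h3]
        clear h1 h2 h3 h4 k1 k2
        revert γ t
        decide
      · have k1 : BA = 1 + γ := z2 _ _ (by linear_combination h2)
        have k2 : BB' = F4.w + 1 + F4.of t + F4.w * F4.w * γ := z2 _ _ (by linear_combination h4)
        rw [k1, k2, h1, two _ h3]
        clear h1 h2 h3 h4 k1 k2
        revert γ t
        decide
      · have k1 : BA = F4.w + F4.of t + γ := z2 _ _ (by linear_combination h2)
        have k2 : BB' = 1 + F4.w * F4.w * γ := z2 _ _ (by linear_combination h4)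
        rw [k1, k2, two _ h1, h3]
        clear h1 h2 h3 h4 k1 k2
        revert γ t
        decide
    apply fin (rr g)
    rcases hg with ⟨x, y⟩ | ⟨x, y⟩ | ⟨x, y⟩ | ⟨x, y⟩
    · left
      rw [← one_mul qA] at x
      rw [← one_mul qB] at y
      obtain ⟨x1, x2⟩ := key c0 cA x
      obtain ⟨y1, y2⟩ := key c0 cB y
      rw [hXa, Pi.zero_apply, zero_add] at x1
      rw [hXb, Pi.zero_apply, zero_add] at y1
      rw [B0, hBA, zero_add] at x2
      rw [B0, hBBB, zero_add, heg] at y2
      exact ⟨x1, x2, y1, y2⟩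
    · right; left
      obtain ⟨x1, x2⟩ := key cδ cA x
      obtain ⟨y1, y2⟩ := key cn' cB y
      rw [hXa, Pi.one_apply] at x1
      rw [hXb, Pi.one_apply] at y1
      rw [Bε, hBA] at x2
      rw [Bn, hBBB, heg] at y2
      exact ⟨x1, x2, y1, y2⟩
    · right; right; left
      rw [← neg_one_mul qA] at x
      obtain ⟨x1, x2⟩ := key c1 cA x
      obtain ⟨y1, y2⟩ := key cδ cB y
      rw [hXa, Pi.zero_apply, zero_add] at x1
      rw [hXb, Pi.one_apply] at y1
      rw [B1, hBA] at x2
      rw [Bε, hBBB, heg] at y2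
      exact ⟨x1, x2, y1, y2⟩
    · right; right; right
      rw [← neg_one_mul qB] at y
      obtain ⟨x1, x2⟩ := key cn' cA x
      obtain ⟨y1, y2⟩ := key c1 cB y
      rw [hXa, Pi.one_apply] at x1
      rw [hXb, Pi.zero_apply, zero_add] at y1
      rw [Bn, hBA] at x2
      rw [B1, hBBB, heg] at y2
      exact ⟨x1, x2, y1, y2⟩
  have e1 : ∀ j : ι, dg (fun i j => ns (o8 π i) (o8 π j)) (fun j => ns (-1) (o8 π j))
      (fun j => ns (2 * e - 1) (o8 π j)) ε (some j) = ε * ns (-1) (o8 π (some j)) +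
        (1 : Option (Option ι) → ZMod 2) none * ns (2 * e - 1) (o8 π (some j)) +
        ∑ i ∈ univ.erase (some j), ns (o8 π i) (o8 π (some j)) *
          (1 : Option (Option ι) → ZMod 2) (some i) := by
    intro j
    unfold dg
    simp
  have key := pair_gen8 (cjF R h) hc hns hsum sA (xA none) sB (xB none) (fun i => xA (some i))
    (fun i => xB (some i)) (by
      have := (hE none).1
      rw [neg_one_l R h hl, neg_one_l R h hl, hn0] at this
      linear_combination this) (by
      have := (hE none).2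
      rw [neg_one_l R h hl, neg_one_l R h hl, hn0] at this
      linear_combination this) (fun j => by
      have := (hE (some (some j))).1
      rw [EQ_some R h, EQ_some R h] at this
      rw [e1]
      exact this) (fun j => by
      have := (hE (some (some j))).2
      rw [EQ_some R h, EQ_some R h] at this
      rw [e1]
      exact this) hZ
  have hxA : xA = fun _ => xA none := by
    funext o
    rcases o with _ | i
    · rfl
    · exact (key i).1
  have hxB : xB = fun _ => xB none := by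
    funext o
    rcases o with _ | i
    · rfl
    · exact (key i).2
  have h3A := (hE none).1
  have h3B := (hE none).2
  rw [neg_one_l R h hl, neg_one_l R h hl, hn0] at h3A h3B
  -- the four cases
  rcases zmod2_cases (xA none) with hA0 | hA1 <;> rcases zmod2_cases (xB none) with hB0 | hB1
  · left
    rw [hA0, hB0] at h3A h3B
    have k1 : sA = 0 := by linear_combination h3A
    have k2 : sB = 0 := by linear_combination h3B
    rw [hxA, hA0, k1] at cA
    rw [hxB, hB0, k2] at cB
    exact ⟨cA.trans c0.symm, cB.trans c0.symm⟩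
  · right; right; left
    rw [hA0, hB1] at h3A h3B
    have k1 : sA = 1 := by linear_combination h3A - two_eq (1 : ZMod 2)
    have k2 : sB = ε := by linear_combination h3B - two_eq ε
    rw [hxA, hA0, k1] at cA
    rw [hxB, hB1, k2] at cB
    exact ⟨cA.trans c1.symm, cB⟩
  · right; right; right
    rw [hA1, hB0] at h3A h3B
    have k1 : sA = 1 + ε := by linear_combination h3A - two_eq ε - two_eq (1 : ZMod 2)
    have k2 : sB = 1 := by linear_combination h3B - two_eq (1 : ZMod 2)
    rw [hxA, hA1, k1] at cA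
    rw [hxB, hB0, k2] at cB
    exact ⟨cA.trans cn.symm, cB.trans c1.symm⟩
  · right; left
    rw [hA1, hB1] at h3A h3B
    have k1 : sA = ε := by linear_combination h3A - two_eq ε - two_eq (1 : ZMod 2)
    have k2 : sB = 1 + ε := by linear_combination h3B - two_eq ε - two_eq (1 : ZMod 2)
    rw [hxA, hA1, k1] at cA
    rw [hxB, hB1, k2] at cB
    exact ⟨cA, cB.trans cn.symm⟩

/-- the hypotheses of the descent -/
theorem myY8 (hl : ns (-1) (2 * e - 1) = 1) {M : ℤ} (hM : D = -2 * M) (hM2 : M % 2 = 1)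
    {c' : ι → ι} (hc : Cc c c' b) {t : ZMod 2} (hsum : ∑ i, b i = F4.of (ε + 1 + t))
    (hns : NS8 (fun i j => ns (o8 π i) (o8 π j)) (fun j => ns (-1) (o8 π j))
      (fun j => ns (2 * e - 1) (o8 π j)) c b ε t) :
    MY D (algebraMap (𝓞 F) F e) := by
  have hpid := R.pid
  have hpf := FZ.pf R h
  refine ⟨h.D0, mainY8 R hr h hb hl hM hM2 hc hsum hns, (plc (hpf.pr none)).valuation F, -1, ?_⟩
  have hδ : (D : F) * (2 * algebraMap (𝓞 F) F e - 1) =
      algebraMap (𝓞 F) F (gg (rh e (o8 π)) ε 1) := by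
    rw [delta_gg R h]
    simp only [map_mul, map_sub, map_intCast, map_ofNat, map_one]
  rw [hδ, gg_val hpf]
  rfl

end main

end Pool.Agent.L0h23.FC
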